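import Pool.Agent.Helper21_PSV.LOP
import Pool.Agent.Helper21_MTN.GFE

/-!
# Row psv:GFP, the explicit lower bound, uniform in the system
-/

set_option autoImplicit false
set_option linter.unusedSectionVars false

namespace Pool.Agent.PSV.H21

open BigOperators Polynomial Matrix Pool.Agent.MT100 Pool.Agent.MT100.H76 Pool.Agent.MT100G
open Pool.Agent.MT100G.H76 Pool.Agent.MT100D Pool.Agent.MT100D.H78 Pool.Agent.MTN
open Pool.Agent.MTN.H21

theorem gfp (hV : ValStmt) (hT : GtpStmt) (hG : GapStmt) (hS : SipStmt) (hSt : SatStmt) :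
    GfpStmt := by
  intro m A
  refine ⟨1 / (6 * (A + 1) * (m + 1)), by positivity, ?_⟩
  intro n
  obtain ⟨a, ha1, hlow⟩ := lowP Pool.Agent.Helper58_MT.recStmt zsaD hV hT hG hS zsp hSt n
  refine ⟨a, ?_⟩
  intro d _ _ H K N δ q B B0 Sz hone u huB hu
  have hR1 := hlow (A + 1) (by omega) d H K N δ q B B0 Sz ⟨Sz.sys, hone⟩ u huB hu _ rfl
  have hB0R : (2 : ℝ) ≤ B0 := by exact_mod_cast Sz.two
  rintro w ⟨f, hf0, hfd, hfc, hfw⟩ hRw Nu Z hNu hZ
  have hw1 : (B0 : ℝ) ^ a ≤ ‖w‖ := hRw
  have hw2 : 2 ≤ ‖w‖ := by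
    refine le_trans ?_ hRw
    calc (2 : ℝ) ≤ B0 := hB0R
      _ = (B0 : ℝ) ^ 1 := (pow_one _).symm
      _ ≤ (B0 : ℝ) ^ a := pow_le_pow_right₀ (by linarith) ha1
  have hf0' : f.map (Int.castRingHom ℚ) ≠ 0 :=
    (Polynomial.map_ne_zero_iff Int.cast_injective).2 hf0
  have hfw' : aeval w (f.map (Int.castRingHom ℚ)) = 0 := by
    rw [← hfw, ← algebraMap_int_eq, aeval_map_algebraMap]
  have hint : IsIntegral ℚ w := isAlgebraic_iff_isIntegral.1 ⟨_, hf0', hfw'⟩
  have hfin : FiniteDimensional ℚ (IntermediateField.adjoin ℚ {w}) :=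
    IntermediateField.adjoin.finiteDimensional hint
  have : NumberField (IntermediateField.adjoin ℚ {w}) := ⟨⟩
  obtain ⟨w0, hw0⟩ : ∃ w0 : IntermediateField.adjoin ℚ {w}, (w0 : ℂ) = w :=
    ⟨⟨w, IntermediateField.mem_adjoin_simple_self ℚ w⟩, rfl⟩
  obtain ⟨σ, hσ⟩ : ∃ σ : IntermediateField.adjoin ℚ {w} →+* ℂ, ∀ x, σ x = (x : ℂ) :=
    ⟨algebraMap (IntermediateField.adjoin ℚ {w}) ℂ, fun x => rfl⟩
  have hσw : σ w0 = w := by rw [hσ, hw0]
  have hfw0 : aeval w0 f = 0 := by
    apply σ.injective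
    rw [map_zero, ← tau_aeval, hσw]
    exact hfw
  have hA1 : 1 ≤ ‖w‖ ^ A := one_le_pow₀ (by linarith)
  have hroots : ∀ τ : IntermediateField.adjoin ℚ {w} →+* ℂ, ‖τ w0‖ ≤ ‖w‖ ^ (A + 1) := by
    intro τ
    have h1 : aeval (τ w0) f = 0 := by
      rw [tau_aeval, hfw0, map_zero]
    have h3 := root_le f hf0 (‖w‖ ^ A) (by positivity) hfc (τ w0) h1
    rw [pow_succ]
    nlinarith
  have hlc0 : f.leadingCoeff ≠ 0 := leadingCoeff_ne_zero.2 hf0
  have key := hR1 (IntermediateField.adjoin ℚ {w}) σ w0 f.leadingCoeff.natAbs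
    (by rw [hσw]; exact hw1) (Int.natAbs_pos.2 hlc0) (by
      have h1 := isIntegral_leadingCoeff_smul f w0 hfw0
      rw [zsmul_eq_mul] at h1
      have h2 : ((f.leadingCoeff.natAbs : ℕ) : IntermediateField.adjoin ℚ {w}) =
          ((|f.leadingCoeff| : ℤ) : IntermediateField.adjoin ℚ {w}) := by
        rw [Int.abs_eq_natAbs, Int.cast_natCast]
      rw [h2]
      rcases abs_choice f.leadingCoeff with h3 | h3
      · rw [h3]
        exact h1
      · rw [h3, Int.cast_neg, neg_mul]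
        exact h1.neg) (by
      rw [hσw]
      have h1 := hfc f.natDegree
      have h2 : ((f.leadingCoeff.natAbs : ℕ) : ℝ) = |((f.coeff f.natDegree : ℤ) : ℝ)| := by
        rw [Nat.cast_natAbs]
        push_cast
        rfl
      rw [h2]
      refine h1.trans (pow_le_pow_right₀ (by linarith) (Nat.le_succ A))) (by
      intro τ
      rw [hσw]
      exact hroots τ) Nu Z (by
      intro a ha
      rw [hσw]
      simp only [hσ]
      exact hNu a ha) (by
      intro p hp
      refine hZ p hp _ fun i => ?_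
      rw [← hσ, ← sigma_aeval, map_inv₀, hσw])
  have hn : Module.finrank ℚ (IntermediateField.adjoin ℚ {w}) ≤ m := by
    rw [IntermediateField.adjoin.finrank hint]
    refine le_trans ?_ hfd
    rw [← natDegree_map_eq_of_injective (f := Int.castRingHom ℚ) Int.cast_injective f]
    exact natDegree_le_natDegree (minpoly.degree_le_of_ne_zero ℚ w hf0' hfw')
  have hZc : Module.finrank (IntermediateField.adjoin ℚ {w}) Z ≤ Fintype.card d := by
    have := Submodule.finrank_le Z
    rwa [Module.finrank_fintype_fun_eq_card] at this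
  have hNc : Module.finrank (IntermediateField.adjoin ℚ {w}) Nu ≤ Fintype.card d := by
    have := Submodule.finrank_le Nu
    rwa [Module.finrank_fintype_fun_eq_card] at this
  have key2 : Fintype.card d - Module.finrank (IntermediateField.adjoin ℚ {w}) Z ≤
      6 * (A + 1) * (m + 1) * (Fintype.card d - Module.finrank (IntermediateField.adjoin ℚ {w}) Nu) :=
    key.trans (Nat.mul_le_mul_right _ (Nat.mul_le_mul_left _ (by omega)))
  have key3 : (((Fintype.card d - Module.finrank (IntermediateField.adjoin ℚ {w}) Z : ℕ)) : ℝ) ≤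
      ((6 * (A + 1) * (m + 1) *
        (Fintype.card d - Module.finrank (IntermediateField.adjoin ℚ {w}) Nu) : ℕ) : ℝ) := by
    exact_mod_cast key2
  push_cast [Nat.cast_sub hZc, Nat.cast_sub hNc] at key3
  rw [one_div, inv_mul_le_iff₀ (by positivity)]
  exact key3

end Pool.Agent.PSV.H21
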