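import Pool.Agent.Helper1_MTN.Gme
import Pool.Agent.Helper21_PSV.GFP

/-!
# The lower bound for all the entries of a fundamental matrix, explicit

`gmq`: uniform in the system, no condition on `H(0)`.
-/

set_option autoImplicit false
set_option linter.unusedSectionVars false

namespace Pool.Agent.PSV.H21

open Matrix Polynomial Pool.Agent.MT100 Pool.Agent.MT100G Pool.Agent.MT100A Pool.Agent.MT100D
  Pool.Agent.Helper78_MT Pool.Agent.MT100G.H43 Pool.Agent.MT100D.H2 Pool.Agent.MTN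
  Pool.Agent.MTN.H1 Pool.Agent.MTN.H21
open Pool.Agent.MT100G.H76 Pool.Agent.MT100.H76
open scoped Kronecker

/-- GMQ: the lower bound for all the entries of a fundamental matrix, uniform in the system -/
def GmqStmt : Prop :=
  ∀ m A : ℕ, ∃ η : ℝ, 0 < η ∧ ∀ n : ℕ, ∃ a : ℕ, ∀ (d : Type) [Fintype d] [DecidableEq d]
    (H K : Matrix d d (PowerSeries ℚ)) (N : Matrix d d ℤ) (δ : d → ℚ) (q : ℤ[X])
    (Bm : Matrix d d ℤ[X]) (B : ℕ), Siz n B H K N δ q Bm →
    ∀ w ∈ MTN.Pts m A, ((B : ℝ) ^ a) ≤ ‖w‖ → MTN.Lb η (fun x : d × d => H x.1 x.2) w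

variable {d : Type} [Fintype d] [DecidableEq d]

theorem gsysd_kronE {H K : Matrix d d (PowerSeries ℚ)} {N : Matrix d d ℤ} {δ : d → ℚ} {q : ℤ[X]}
    {B : Matrix d d ℤ[X]} (hS : GSysD H K N δ q B) (m : ℕ) (hm : 0 < m) (Z : Matrix d d ℤ)
    (hZ : ∀ i j, (m : ℚ) * AA N δ i j = Z i j) :
      GSysD (H ⊗ₖ (1 : Matrix d d (PowerSeries ℚ))) (K ⊗ₖ (1 : Matrix d d (PowerSeries ℚ)))
        (N ⊗ₖ (1 : Matrix d d ℤ) - (1 : Matrix d d ℤ) ⊗ₖ Nᵀ) (fun x : d × d => δ x.1 - δ x.2)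
        (C (m : ℤ) * q) (C (m : ℤ) • (B ⊗ₖ (1 : Matrix d d ℤ[X])) -
    q • ((1 : Matrix d d ℤ[X]) ⊗ₖ (Zᵀ.map (fun x => C x)))) := by
  have hm0 : (m : ℤ) ≠ 0 := by exact_mod_cast hm.ne'
  refine ⟨⟨?_, ?_, ?_, mul_ne_zero (by rwa [Ne, C_eq_zero]) hS.q0, ?_, ?_, ?_⟩, ?_⟩
  · rw [← Matrix.mul_kronecker_mul, hS.inv, one_mul, Matrix.one_kronecker_one]
  · have hc : Commute (N ⊗ₖ (1 : Matrix d d ℤ)) ((1 : Matrix d d ℤ) ⊗ₖ Nᵀ) := by
      show _ * _ = _ * _
      rw [← Matrix.mul_kronecker_mul, ← Matrix.mul_kronecker_mul, one_mul, mul_one, one_mul, mul_one]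
    refine hc.isNilpotent_sub ?_ ?_
    · obtain ⟨m, hm⟩ := hS.nil
      refine ⟨m, ?_⟩
      have : ∀ t : ℕ, (N ⊗ₖ (1 : Matrix d d ℤ)) ^ t = (N ^ t) ⊗ₖ (1 : Matrix d d ℤ) := by
        intro t
        induction t with
        | zero => rw [pow_zero, pow_zero, Matrix.one_kronecker_one]
        | succ t ih => rw [pow_succ, ih, ← Matrix.mul_kronecker_mul, pow_succ, mul_one]
      rw [this, hm, Matrix.zero_kronecker]
    · obtain ⟨m, hm⟩ := hS.nil
      refine ⟨m, ?_⟩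
      have : ∀ t : ℕ, ((1 : Matrix d d ℤ) ⊗ₖ Nᵀ) ^ t = (1 : Matrix d d ℤ) ⊗ₖ (Nᵀ ^ t) := by
        intro t
        induction t with
        | zero => rw [pow_zero, pow_zero, Matrix.one_kronecker_one]
        | succ t ih => rw [pow_succ, ih, ← Matrix.mul_kronecker_mul, pow_succ, mul_one]
      rw [this, ← Matrix.transpose_pow, hm, Matrix.transpose_zero, Matrix.kronecker_zero]
  · rintro ⟨i, j⟩ ⟨k, l⟩ h
    rw [Matrix.sub_apply, Matrix.kronecker_apply, Matrix.kronecker_apply, Matrix.transpose_apply,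
      Matrix.one_apply, Matrix.one_apply] at h
    show δ i - δ j = δ k - δ l
    by_cases h1 : i = k
    · subst h1
      by_cases h2 : j = l
      · subst h2
        rfl
      · rw [if_neg h2, if_pos rfl, mul_zero, zero_sub, one_mul, neg_ne_zero] at h
        rw [hS.com _ _ h]
    · rw [if_neg h1, zero_mul, sub_zero] at h
      by_cases h2 : j = l
      · subst h2
        rw [if_pos rfl, mul_one] at h
        rw [hS.com _ _ h]
      · rw [if_neg h2, mul_zero] at h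
        exact absurd rfl h
  · set Bz : Matrix d d (PowerSeries ℚ) := B.map zp with hBz
    set Az : Matrix d d (PowerSeries ℚ) := (AA N δ).map (fun x => PowerSeries.C x) with hAz
    set c : PowerSeries ℚ := PowerSeries.C (m : ℚ) with hc
    have hq : zp (C (m : ℤ) * q) = c * zp q := by
      rw [← zpH_apply, map_mul, zpH_C, zpH_apply, hc]
      norm_num
    have h1 : (H ⊗ₖ (1 : Matrix d d (PowerSeries ℚ))).map dv =
        (H.map dv) ⊗ₖ (1 : Matrix d d (PowerSeries ℚ)) := by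
      ext ⟨i, j⟩ ⟨k, l⟩ : 2
      rw [Matrix.map_apply, Matrix.kronecker_apply, Matrix.kronecker_apply, Matrix.map_apply,
        Matrix.one_apply, dv_mul_ite]
    have h2 : (C (m : ℤ) • (B ⊗ₖ (1 : Matrix d d ℤ[X])) -
        q • ((1 : Matrix d d ℤ[X]) ⊗ₖ (Zᵀ.map (fun x => C x)))).map zp =
        c • (Bz ⊗ₖ (1 : Matrix d d (PowerSeries ℚ))) -
          (c * zp q) • ((1 : Matrix d d (PowerSeries ℚ)) ⊗ₖ Azᵀ) := by
      ext ⟨i, j⟩ ⟨k, l⟩ : 1
      simp only [Matrix.map_apply, Matrix.sub_apply, Matrix.smul_apply, Matrix.kronecker_apply,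
        Matrix.transpose_apply, smul_eq_mul, ← zpH_apply, map_sub, map_mul, hBz, hAz]
      rw [zpH_one, zpH_one, zpH_C, zpH_C, ← hZ l j,
        map_mul (PowerSeries.C : ℚ →+* PowerSeries ℚ), ← hc]
      have h3 : (PowerSeries.C (((m : ℤ) : ℤ) : ℚ) : PowerSeries ℚ) = c := by
        rw [hc]
        norm_num
      rw [h3]
      ring
    have h3 : (AA (N ⊗ₖ (1 : Matrix d d ℤ) - (1 : Matrix d d ℤ) ⊗ₖ Nᵀ)
        (fun x : d × d => δ x.1 - δ x.2)).map (fun x => PowerSeries.C x) =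
        Az ⊗ₖ (1 : Matrix d d (PowerSeries ℚ)) - (1 : Matrix d d (PowerSeries ℚ)) ⊗ₖ Azᵀ := by
      have h4 : ∀ a b : d, (PowerSeries.C ((1 : Matrix d d ℚ) a b) : PowerSeries ℚ) =
          (1 : Matrix d d (PowerSeries ℚ)) a b := by
        intro a b
        rw [Matrix.one_apply, Matrix.one_apply]
        split_ifs
        · exact map_one _
        · exact map_zero _
      rw [AA_kron]
      ext ⟨i, j⟩ ⟨k, l⟩ : 2
      simp only [Matrix.map_apply, Matrix.sub_apply, Matrix.kronecker_apply,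
        Matrix.transpose_apply, hAz]
      rw [map_sub, map_mul, map_mul, h4, h4]
    rw [hq, h1, h2, h3]
    have h5 : Bz ⊗ₖ (1 : Matrix d d (PowerSeries ℚ)) * H ⊗ₖ (1 : Matrix d d (PowerSeries ℚ)) =
        (Bz * H) ⊗ₖ (1 : Matrix d d (PowerSeries ℚ)) := by
      rw [← Matrix.mul_kronecker_mul, one_mul]
    have h6 : (1 : Matrix d d (PowerSeries ℚ)) ⊗ₖ Azᵀ * H ⊗ₖ (1 : Matrix d d (PowerSeries ℚ)) =
        H ⊗ₖ Azᵀ := by
      rw [← Matrix.mul_kronecker_mul, one_mul, mul_one]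
    have h7 : H ⊗ₖ (1 : Matrix d d (PowerSeries ℚ)) * Az ⊗ₖ (1 : Matrix d d (PowerSeries ℚ)) =
        (H * Az) ⊗ₖ (1 : Matrix d d (PowerSeries ℚ)) := by
      rw [← Matrix.mul_kronecker_mul, one_mul]
    have h8 : H ⊗ₖ (1 : Matrix d d (PowerSeries ℚ)) * (1 : Matrix d d (PowerSeries ℚ)) ⊗ₖ Azᵀ =
        H ⊗ₖ Azᵀ := by
      rw [← Matrix.mul_kronecker_mul, one_mul, mul_one]
    have h9 : (zp q * PowerSeries.X) • ((H.map dv) ⊗ₖ (1 : Matrix d d (PowerSeries ℚ))) =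
        (Bz * H) ⊗ₖ (1 : Matrix d d (PowerSeries ℚ)) -
          zp q • ((H * Az) ⊗ₖ (1 : Matrix d d (PowerSeries ℚ))) := by
      rw [← Matrix.smul_kronecker, hS.ode, ← hBz, ← hAz, sub_eq_add_neg (Bz * H),
        Matrix.add_kronecker, ← neg_smul, Matrix.smul_kronecker, neg_smul, ← sub_eq_add_neg]
    rw [mul_assoc c, mul_smul c, h9, sub_mul, mul_sub, Matrix.smul_mul, Matrix.smul_mul, h5, h6, h7,
      h8, smul_sub, smul_sub]
    simp only [mul_smul]
    abel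
  · rintro ⟨i, j⟩ ⟨k, l⟩
    rw [Matrix.kronecker_apply, Matrix.one_apply]
    split_ifs
    · rw [mul_one]
      exact hS.gH i k
    · rw [mul_zero]
      exact gtype_zero
  · rintro ⟨i, j⟩ ⟨k, l⟩
    rw [Matrix.kronecker_apply, Matrix.one_apply]
    split_ifs
    · rw [mul_one]
      exact hS.gK i k
    · rw [mul_zero]
      exact gtype_zero
  · rintro ⟨i, j⟩ ⟨k, l⟩
    rw [Matrix.kronecker_apply, map_mul, hS.one, Matrix.one_apply]
    simp only [Prod.mk.injEq]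
    by_cases h1 : i = k <;> by_cases h2 : j = l <;> simp [h1, h2]

theorem gaugeE {H K : Matrix d d (PowerSeries ℚ)} {N : Matrix d d ℤ} {δ : d → ℚ} {q : ℤ[X]}
    {B : Matrix d d ℤ[X]} (hS : GSysW H K N δ q B) (H0 K0 : Matrix d d ℚ)
    (hH0 : H0 = H.map (fun f => PowerSeries.constantCoeff f))
    (hK0 : K0 = K.map (fun f => PowerSeries.constantCoeff f))
    (m1 : ℕ) (hm1 : 0 < m1) (Z1 : Matrix d d ℤ) (hZ1 : ∀ i j, (m1 : ℚ) * K0 i j = Z1 i j)
    (m2 : ℕ) (hm2 : 0 < m2) (Z2 : Matrix d d ℤ) (hZ2 : ∀ i j, (m2 : ℚ) * H0 i j = Z2 i j) :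
    H0 * K0 = 1 ∧ K0 * H0 = 1 ∧
      GSysD (cm K0 * H) (K * cm H0) N δ (C ((m1 * m2 : ℕ) : ℤ) * q)
        (Z1.map (fun x => C x) * B * Z2.map (fun x => C x)) := by
  have e1 : H0 * K0 = 1 := by
    have h := congrArg (PowerSeries.constantCoeff (R := ℚ)).mapMatrix hS.inv
    rw [map_mul, map_one] at h
    rw [hH0, hK0]
    exact h
  have e2 : K0 * H0 = 1 := mul_eq_one_comm.mp e1
  have e3 : cm H0 * cm K0 = 1 := by rw [← map_mul, e1, map_one]
  have e4 : cm K0 * cm H0 = 1 := by rw [← map_mul, e2, map_one]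
  have hm0 : ((m1 * m2 : ℕ) : ℤ) ≠ 0 := by exact_mod_cast (Nat.mul_pos hm1 hm2).ne'
  refine ⟨e1, e2, ⟨⟨?_, hS.nil, hS.com, mul_ne_zero (by rwa [Ne, C_eq_zero]) hS.q0,
    ?_, ?_, ?_⟩, ?_⟩⟩
  · calc cm K0 * H * (K * cm H0) = cm K0 * (H * K) * cm H0 := by
          rw [Matrix.mul_assoc, Matrix.mul_assoc, Matrix.mul_assoc]
      _ = 1 := by rw [hS.inv, mul_one, e4]
  · set Bz : Matrix d d (PowerSeries ℚ) := B.map zp with hBz
    set Az : Matrix d d (PowerSeries ℚ) := (AA N δ).map (fun x => PowerSeries.C x) with hAz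
    set c1 : PowerSeries ℚ := PowerSeries.C (m1 : ℚ) with hc1
    set c2 : PowerSeries ℚ := PowerSeries.C (m2 : ℚ) with hc2
    have hq : zp (C ((m1 * m2 : ℕ) : ℤ) * q) = (c1 * c2) * zp q := by
      rw [← zpH_apply, map_mul, zpH_C, zpH_apply, hc1, hc2, ← map_mul]
      norm_num
    have hB : (Z1.map (fun x => C x) * B * Z2.map (fun x => C x)).map zp =
        (c1 * c2) • (cm K0 * Bz * cm H0) := by
      have h1 : (Z1.map (fun x => C x) : Matrix d d ℤ[X]).map zpH = c1 • cm K0 := by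
        ext i j : 2
        rw [Matrix.map_apply, Matrix.map_apply, zpH_C, Matrix.smul_apply, cm_apply, Matrix.map_apply,
          smul_eq_mul, hc1, ← map_mul, hZ1]
      have h2 : (Z2.map (fun x => C x) : Matrix d d ℤ[X]).map zpH = c2 • cm H0 := by
        ext i j : 2
        rw [Matrix.map_apply, Matrix.map_apply, zpH_C, Matrix.smul_apply, cm_apply, Matrix.map_apply,
          smul_eq_mul, hc2, ← map_mul, hZ2]
      have h3 : (Z1.map (fun x => C x) * B * Z2.map (fun x => C x)).map zp =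
          zpH.mapMatrix (Z1.map (fun x => C x) * B * Z2.map (fun x => C x)) := rfl
      rw [h3, map_mul, map_mul, RingHom.mapMatrix_apply, RingHom.mapMatrix_apply,
        RingHom.mapMatrix_apply, h1, h2]
      have h4 : B.map zpH = Bz := rfl
      rw [h4, Matrix.smul_mul, Matrix.smul_mul, Matrix.mul_smul, smul_smul]
    have h5 : (zp q * PowerSeries.X) • (cm K0 * H.map dv) =
        cm K0 * Bz * cm H0 * (cm K0 * H) - zp q • (cm K0 * H * Az) := by
      rw [← Matrix.mul_smul, hS.ode, ← hBz, ← hAz, Matrix.mul_sub, Matrix.mul_smul,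
        Matrix.mul_assoc (cm K0) H Az]
      congr 1
      calc cm K0 * (Bz * H) = cm K0 * Bz * H := (Matrix.mul_assoc _ _ _).symm
        _ = cm K0 * Bz * (cm H0 * cm K0) * H := by rw [e3, mul_one]
        _ = _ := by simp only [Matrix.mul_assoc]
    rw [hq, hB, dv_cm_mul, mul_assoc (c1 * c2), mul_smul (c1 * c2) (zp q * PowerSeries.X), h5,
      smul_sub, Matrix.smul_mul, mul_smul (c1 * c2) (zp q)]
  · exact MT100.H27.gtype_mmul (gtype_cm K0) hS.gH
  · exact MT100.H27.gtype_mmul hS.gK (gtype_cm H0)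
  · intro i j
    have h := congrFun (congrFun e2 i) j
    rw [Matrix.one_apply] at h
    rw [← h, Matrix.mul_apply, Matrix.mul_apply, map_sum]
    refine Finset.sum_congr rfl fun k _ => ?_
    rw [map_mul, cm_apply, Matrix.map_apply, PowerSeries.constantCoeff_C, hH0, Matrix.map_apply]

/-! ### Sizes -/

theorem PB.mono {n B B' : ℕ} {p : ℤ[X]} (h : PB n B p) (hB : B ≤ B') : PB n B' p :=
  ⟨h.1, fun k => (h.2 k).trans (by exact_mod_cast hB)⟩

theorem PB.monoN {n n' B : ℕ} {p : ℤ[X]} (h : PB n B p) (hn : n ≤ n') : PB n' B p :=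
  ⟨h.1.trans hn, h.2⟩

theorem PB.zero (n B : ℕ) : PB n B 0 := ⟨by simp, fun k => by simp⟩

theorem PB.sum {ι : Type} [Fintype ι] {n B : ℕ} {f : ι → ℤ[X]} (h : ∀ i, PB n B (f i)) :
    PB n (Fintype.card ι * B) (∑ i, f i) := by
  refine ⟨natDegree_sum_le_of_forall_le _ _ fun i _ => (h i).1, fun k => ?_⟩
  rw [finsetSum_coeff]
  refine (Finset.abs_sum_le_sum_abs _ _).trans ?_
  refine (Finset.sum_le_card_nsmul _ _ (B : ℤ) fun i _ => (h i).2 k).trans ?_
  rw [Finset.card_univ, nsmul_eq_mul]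
  push_cast
  exact le_rfl

theorem PB.Cmul {n B c : ℕ} {z : ℤ} {p : ℤ[X]} (h : PB n B p) (hz : |z| ≤ (c : ℤ)) :
    PB n (c * B) (C z * p) := by
  refine ⟨(natDegree_C_mul_le _ _).trans h.1, fun k => ?_⟩
  rw [coeff_C_mul, abs_mul]
  push_cast
  exact mul_le_mul hz (h.2 k) (abs_nonneg _) (by positivity)

theorem PB.mulC {n B c : ℕ} {z : ℤ} {p : ℤ[X]} (h : PB n B p) (hz : |z| ≤ (c : ℤ)) :
    PB n (c * B) (p * C z) := by
  rw [mul_comm p (C z)]
  exact PB.Cmul h hz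

theorem PB.sub {n B B' : ℕ} {p p' : ℤ[X]} (h : PB n B p) (h' : PB n B' p') :
    PB n (B + B') (p - p') := by
  refine ⟨(natDegree_sub_le _ _).trans (max_le h.1 h'.1), fun k => ?_⟩
  rw [coeff_sub]
  refine (abs_sub _ _).trans ?_
  push_cast
  exact add_le_add (h.2 k) (h'.2 k)

theorem cdenB {ι : Type} [Fintype ι] (x : ι → ℚ) (B : ℕ) (h : ∀ i, (x i).den ≤ B) :
    ∃ m : ℕ, 0 < m ∧ m ≤ B ^ Fintype.card ι ∧ ∃ z : ι → ℤ, ∀ i, (m : ℚ) * x i = z i := by
  classical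
  refine ⟨∏ i, (x i).den, Finset.prod_pos fun i _ => (x i).pos, ?_, ?_⟩
  · refine (Finset.prod_le_pow_card _ _ B fun i _ => h i).trans ?_
    rw [Finset.card_univ]
  have h : ∀ i, ∃ z : ℤ, (((∏ i, (x i).den : ℕ)) : ℚ) * x i = z := by
    intro i
    obtain ⟨c, hc⟩ := Finset.dvd_prod_of_mem (fun i => (x i).den) (Finset.mem_univ i)
    refine ⟨(c : ℤ) * (x i).num, ?_⟩
    rw [hc]
    have h1 : ((x i).den : ℚ) ≠ 0 := by exact_mod_cast (x i).den_nz
    have h2 : x i = (x i).num / (x i).den := (Rat.num_div_den _).symm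
    rw [Int.cast_mul, Int.cast_natCast, Nat.cast_mul]
    have h3 : ((x i).den : ℚ) * x i = (x i).num := by
      nth_rewrite 2 [h2]
      field_simp
    calc ((x i).den : ℚ) * (c : ℚ) * x i = c * (((x i).den : ℚ) * x i) := by ring
      _ = c * (x i).num := by rw [h3]
  choose z hz using h
  exact ⟨z, hz⟩

/-- common denominators of the entries of a matrix -/
theorem cdenMB (x : Matrix d d ℚ) (B n : ℕ) (hB : 1 ≤ B) (hn : Fintype.card d ≤ n)
    (h : ∀ i j, RB B (x i j)) :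
    ∃ m : ℕ, 0 < m ∧ m ≤ B ^ (n * n) ∧ ∃ z : Matrix d d ℤ, (∀ i j, (m : ℚ) * x i j = z i j) ∧
      ∀ i j, |z i j| ≤ ((B ^ (n * n) * B : ℕ) : ℤ) := by
  obtain ⟨m, hm, hmB, z, hz⟩ := cdenB (fun p : d × d => x p.1 p.2) B fun p => (h p.1 p.2).1
  have hmB' : m ≤ B ^ (n * n) := by
    refine hmB.trans (Nat.pow_le_pow_right hB ?_)
    rw [Fintype.card_prod]
    exact Nat.mul_le_mul hn hn
  refine ⟨m, hm, hmB', fun i j => z (i, j), fun i j => hz (i, j), fun i j => ?_⟩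
  have h1 := hz (i, j)
  have h2 : |((z (i, j) : ℤ) : ℚ)| ≤ ((B ^ (n * n) * B : ℕ) : ℚ) := by
    rw [← h1, abs_mul, Nat.abs_cast]
    push_cast
    refine mul_le_mul ?_ (h i j).2 (abs_nonneg _) (by positivity)
    exact_mod_cast hmB'
  rw [← Int.cast_abs] at h2
  exact_mod_cast h2

theorem RB.mono {B B' : ℕ} {r : ℚ} (h : RB B r) (hB : B ≤ B') : RB B' r :=
  ⟨h.1.trans hB, h.2.trans (by exact_mod_cast hB)⟩

theorem RB.sub {B : ℕ} {r s : ℚ} (hB : 2 ≤ B) (hr : RB B r) (hs : RB B s) : RB (B ^ 2) (r - s) := by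
  constructor
  · refine (Nat.le_of_dvd (Nat.mul_pos r.pos s.pos) (Rat.sub_den_dvd r s)).trans ?_
    rw [pow_two]
    exact Nat.mul_le_mul hr.1 hs.1
  · refine (abs_sub _ _).trans ?_
    have h1 : (2 : ℚ) ≤ B := by exact_mod_cast hB
    push_cast
    nlinarith [hr.2, hs.2]

theorem RB.add {B : ℕ} {r s : ℚ} (hB : 2 ≤ B) (hr : RB B r) (hs : RB B s) : RB (B ^ 2) (r + s) := by
  constructor
  · refine (Nat.le_of_dvd (Nat.mul_pos r.pos s.pos) (Rat.add_den_dvd r s)).trans ?_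
    rw [pow_two]
    exact Nat.mul_le_mul hr.1 hs.1
  · refine (abs_add_le _ _).trans ?_
    have h1 : (2 : ℚ) ≤ B := by exact_mod_cast hB
    push_cast
    nlinarith [hr.2, hs.2]

/-- the constant term of a series of G-type -/
theorem rb_const {B : ℕ} {f : PowerSeries ℚ} (h : GTC B f) :
    RB B (PowerSeries.constantCoeff f) := by
  obtain ⟨h1, D, hD0, hDB, hD⟩ := h 0
  rw [PowerSeries.coeff_zero_eq_constantCoeff_apply, zero_add, pow_one] at h1
  rw [zero_add, pow_one] at hDB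
  obtain ⟨z, hz⟩ := hD 0 le_rfl
  rw [PowerSeries.coeff_zero_eq_constantCoeff_apply] at hz
  refine ⟨?_, h1⟩
  have hD' : (D : ℚ) ≠ 0 := by exact_mod_cast hD0.ne'
  have h2 : PowerSeries.constantCoeff f = (z : ℚ) / (D : ℤ) := by
    rw [Int.cast_natCast, eq_div_iff hD', mul_comm]
    exact hz
  have h3 : (PowerSeries.constantCoeff f).den ∣ D := by
    have h4 := Rat.den_dvd z (D : ℤ)
    rw [Rat.divInt_eq_div, ← h2] at h4
    exact_mod_cast h4
  exact (Nat.le_of_dvd hD0 h3).trans hDB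

theorem gtc_zero (B : ℕ) (hB : 1 ≤ B) : GTC B 0 := by
  intro k
  refine ⟨by rw [map_zero, abs_zero]; positivity, 1, one_pos, Nat.one_le_pow _ _ hB, fun i _ =>
    ⟨0, by simp⟩⟩

theorem rb_AA {B : ℕ} (hB : 2 ≤ B) (N : Matrix d d ℤ) (δ : d → ℚ) (hN : ∀ i j, |N i j| ≤ (B : ℤ))
    (hδ : ∀ i, RB B (δ i)) (i j : d) : RB (B ^ 2) (AA N δ i j) := by
  unfold AA
  rw [Matrix.add_apply, Matrix.map_apply, Matrix.diagonal_apply]
  refine RB.add hB ⟨?_, ?_⟩ ?_
  · rw [Rat.den_intCast]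
    omega
  · rw [← Int.cast_abs]
    exact_mod_cast hN i j
  · split_ifs
    · exact hδ i
    · refine ⟨?_, ?_⟩
      · rw [Rat.den_zero]
        omega
      · rw [abs_zero]
        positivity

/-- a number which depends only on `n` -/
theorem n_le (n B : ℕ) (hB : 2 ≤ B) : n ≤ B ^ n := by
  have h1 : n ≤ 2 ^ n := Nat.lt_two_pow_self.le
  exact h1.trans (Nat.pow_le_pow_left hB n)

/-- the gauge transformation with sizes -/
theorem gaugeP (hV : ValStmt) (hT : GtpStmt) (n : ℕ) : ∃ a : ℕ, 1 ≤ a ∧ ∀ (d : Type) [Fintype d]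
    [DecidableEq d] (H K : Matrix d d (PowerSeries ℚ)) (N : Matrix d d ℤ) (δ : d → ℚ) (q : ℤ[X])
    (Bm : Matrix d d ℤ[X]) (B : ℕ), Siz n B H K N δ q Bm →
    ∃ (H0 K0 : Matrix d d ℚ) (q' : ℤ[X]) (B' : Matrix d d ℤ[X]), H0 * K0 = 1 ∧ K0 * H0 = 1 ∧
      Siz n (B ^ a) (cm K0 * H) (K * cm H0) N δ q' B' ∧
      GSysD (cm K0 * H) (K * cm H0) N δ q' B' := by
  obtain ⟨a4, h4⟩ := hT.2.2.2
  obtain ⟨a2, h2⟩ := hT.2.1 n
  refine ⟨((a4 + 1) * 4) * a2 + (2 * (n * n) + 2 * n + 4), by omega, ?_⟩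
  intro d _ _ H K N δ q Bm B Sz
  obtain ⟨a, ha⟩ : ∃ a, a = ((a4 + 1) * 4) * a2 + (2 * (n * n) + 2 * n + 4) := ⟨_, rfl⟩
  rw [← ha]
  have hB2 : 2 ≤ B := Sz.two
  have hB1 : 1 ≤ B := by omega
  have hpow : ∀ {x y : ℕ}, x ≤ y → B ^ x ≤ B ^ y := fun h => Nat.pow_le_pow_right hB1 h
  have hBa : B ≤ B ^ a := by
    calc B = B ^ 1 := (pow_one B).symm
      _ ≤ B ^ a := hpow (by omega)
  obtain ⟨H0, hH0⟩ : ∃ H0 : Matrix d d ℚ, H0 = H.map (fun f => PowerSeries.constantCoeff f) :=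
    ⟨_, rfl⟩
  obtain ⟨K0, hK0⟩ : ∃ K0 : Matrix d d ℚ, K0 = K.map (fun f => PowerSeries.constantCoeff f) :=
    ⟨_, rfl⟩
  have hH0r : ∀ i j, RB B (H0 i j) := fun i j => by
    rw [hH0]
    exact rb_const (Sz.gH i j)
  have hK0r : ∀ i j, RB B (K0 i j) := fun i j => by
    rw [hK0]
    exact rb_const (Sz.gK i j)
  obtain ⟨m1, hm1, hm1B, Z1, hZ1, hZ1B⟩ := cdenMB K0 B n hB1 Sz.card hK0r
  obtain ⟨m2, hm2, hm2B, Z2, hZ2, hZ2B⟩ := cdenMB H0 B n hB1 Sz.card hH0r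
  obtain ⟨e1, e2, hD⟩ := gaugeE Sz.sys H0 K0 hH0 hK0 m1 hm1 Z1 hZ1 m2 hm2 Z2 hZ2
  have hX : B ≤ B ^ (a4 + 1) := by
    calc B = B ^ 1 := (pow_one B).symm
      _ ≤ B ^ (a4 + 1) := hpow (by omega)
  have hprod : ∀ (M : Matrix d d ℚ) (G : Matrix d d (PowerSeries ℚ)), (∀ i j, RB B (M i j)) →
      (∀ i j, GTC B (G i j)) → ∀ i j k l, GTC (B ^ ((a4 + 1) * 4)) (cm M i j * G k l) := by
    intro M G hM hG i j k l
    rw [pow_mul]
    refine (hT.1 _ _ _ (by omega) ?_ ?_).1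
    · exact hV.1 _ _ _ (hpow (Nat.le_succ a4)) (h4 B (M i j) hB2 (hM i j))
    · exact hV.1 _ _ _ hX (hG k l)
  have hY : 2 ≤ B ^ ((a4 + 1) * 4) := by
    calc 2 ≤ B := hB2
      _ = B ^ 1 := (pow_one B).symm
      _ ≤ B ^ ((a4 + 1) * 4) := hpow (by omega)
  have hcard : Fintype.card d ≤ B ^ n := Sz.card.trans (n_le n B hB2)
  refine ⟨H0, K0, _, _, e1, e2, ⟨hD.toGSysW, hB2.trans hBa, Sz.card, ?_, ?_, ?_, ?_, ?_, ?_⟩, hD⟩
  · refine PB.mono (PB.Cmul (c := B ^ (n * n) * B ^ (n * n)) Sz.hq ?_) ?_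
    · rw [Nat.abs_cast]
      exact_mod_cast Nat.mul_le_mul hm1B hm2B
    · calc B ^ (n * n) * B ^ (n * n) * B = B ^ (2 * (n * n) + 1) := by ring
        _ ≤ B ^ a := hpow (by omega)
  · intro i j
    rw [Matrix.mul_apply]
    refine PB.mono (PB.sum (B := (B ^ (n * n) * B) * (Fintype.card d * ((B ^ (n * n) * B) * B)))
      fun l => ?_) ?_
    · rw [Matrix.map_apply]
      refine PB.mulC ?_ (hZ2B l j)
      rw [Matrix.mul_apply]
      refine PB.sum fun k => ?_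
      rw [Matrix.map_apply]
      exact PB.Cmul (Sz.hM k l) (hZ1B i k)
    · calc Fintype.card d * ((B ^ (n * n) * B) * (Fintype.card d * ((B ^ (n * n) * B) * B)))
          ≤ B ^ n * ((B ^ (n * n) * B) * (B ^ n * ((B ^ (n * n) * B) * B))) :=
            Nat.mul_le_mul hcard (Nat.mul_le_mul_left _ (Nat.mul_le_mul_right _ hcard))
        _ = B ^ (2 * (n * n) + 2 * n + 3) := by ring
        _ ≤ B ^ a := hpow (by omega)
  · intro i j
    exact (Sz.hN i j).trans (by exact_mod_cast hBa)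
  · intro i
    exact RB.mono (Sz.hδ i) hBa
  · intro i j
    rw [Matrix.mul_apply]
    refine hV.1 _ _ _ ?_ ((h2 d (B ^ ((a4 + 1) * 4)) _ hY Sz.card fun k =>
      hprod K0 H hK0r Sz.gH i k k j).1)
    rw [← pow_mul]
    exact hpow (by omega)
  · intro i j
    rw [Matrix.mul_apply]
    refine hV.1 _ _ _ ?_ ((h2 d (B ^ ((a4 + 1) * 4)) _ hY Sz.card fun k => by
      have := hprod H0 K hH0r Sz.gK k j i k
      rwa [mul_comm (cm H0 k j) (K i k)] at this).1)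
    rw [← pow_mul]
    exact hpow (by omega)

/-- the Kronecker product with the identity, with sizes -/
theorem kronP (hV : ValStmt) (n : ℕ) : ∃ a : ℕ, 1 ≤ a ∧ ∀ (d : Type) [Fintype d]
    [DecidableEq d] (H K : Matrix d d (PowerSeries ℚ)) (N : Matrix d d ℤ) (δ : d → ℚ) (q : ℤ[X])
    (Bm : Matrix d d ℤ[X]) (B : ℕ), Siz n B H K N δ q Bm → GSysD H K N δ q Bm →
    ∃ (q' : ℤ[X]) (B' : Matrix (d × d) (d × d) ℤ[X]),
      Siz (n * n) (B ^ a) (H ⊗ₖ (1 : Matrix d d (PowerSeries ℚ)))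
        (K ⊗ₖ (1 : Matrix d d (PowerSeries ℚ)))
        (N ⊗ₖ (1 : Matrix d d ℤ) - (1 : Matrix d d ℤ) ⊗ₖ Nᵀ) (fun x : d × d => δ x.1 - δ x.2)
        q' B' ∧
      ∀ i j, PowerSeries.constantCoeff ((H ⊗ₖ (1 : Matrix d d (PowerSeries ℚ))) i j) =
        if i = j then 1 else 0 := by
  refine ⟨2 * (n * n) + 2 * (n * n) + 10, by omega, ?_⟩
  intro d _ _ H K N δ q Bm B Sz S
  obtain ⟨a, ha⟩ : ∃ a, a = 2 * (n * n) + 2 * (n * n) + 10 := ⟨_, rfl⟩
  rw [← ha]
  have hB2 : 2 ≤ B := Sz.two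
  have hB1 : 1 ≤ B := by omega
  have hpow : ∀ {x y : ℕ}, x ≤ y → B ^ x ≤ B ^ y := fun h => Nat.pow_le_pow_right hB1 h
  have hBa : B ≤ B ^ a := by
    calc B = B ^ 1 := (pow_one B).symm
      _ ≤ B ^ a := hpow (by omega)
  obtain ⟨m, hm, hmB, Z, hZ, hZB⟩ := cdenMB (AA N δ) (B ^ 2) n (Nat.one_le_pow _ _ hB1) Sz.card
    (rb_AA hB2 N δ Sz.hN Sz.hδ)
  have hD := gsysd_kronE S m hm Z hZ
  have hnn : n ≤ n * n := Nat.le_mul_self n
  have hmZ : |(m : ℤ)| ≤ ((B ^ 2) ^ (n * n) : ℕ) := by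
    rw [Nat.abs_cast]
    exact_mod_cast hmB
  have h1 : ∀ i k : d, |(1 : Matrix d d ℤ) i k| ≤ 1 := by
    intro i k
    rw [Matrix.one_apply]
    split_ifs <;> simp
  refine ⟨_, _, ⟨hD.toGSysW, hB2.trans hBa, ?_, ?_, ?_, ?_, ?_, ?_, ?_⟩, hD.one⟩
  · rw [Fintype.card_prod]
    exact Nat.mul_le_mul Sz.card Sz.card
  · refine PB.mono (PB.Cmul (PB.monoN Sz.hq hnn) hmZ) ?_
    calc (B ^ 2) ^ (n * n) * B = B ^ (2 * (n * n) + 1) := by rw [← pow_mul, pow_succ]
      _ ≤ B ^ a := hpow (by omega)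
  · rintro ⟨i, j⟩ ⟨k, l⟩
    rw [Matrix.sub_apply, Matrix.smul_apply, Matrix.smul_apply, Matrix.kronecker_apply,
      Matrix.kronecker_apply, smul_eq_mul, smul_eq_mul]
    have p1 : PB (n * n) ((B ^ 2) ^ (n * n) * B) (C (m : ℤ) * (Bm i k * (1 : Matrix d d ℤ[X]) j l)) := by
      refine PB.Cmul ?_ hmZ
      rw [Matrix.one_apply]
      split_ifs
      · rw [mul_one]
        exact PB.monoN (Sz.hM i k) hnn
      · rw [mul_zero]
        exact PB.zero _ _
    have p2 : PB (n * n) (((B ^ 2) ^ (n * n) * B ^ 2) * B)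
        (q * ((1 : Matrix d d ℤ[X]) i k * (Zᵀ.map (fun x => C x)) j l)) := by
      rw [Matrix.one_apply]
      split_ifs
      · rw [one_mul, Matrix.map_apply, Matrix.transpose_apply]
        exact PB.mulC (PB.monoN Sz.hq hnn) (hZB l j)
      · rw [zero_mul, mul_zero]
        exact PB.zero _ _
    refine PB.mono (PB.sub p1 p2) ?_
    calc (B ^ 2) ^ (n * n) * B + ((B ^ 2) ^ (n * n) * B ^ 2) * B
        = B ^ (2 * (n * n)) * (B + B ^ 3) := by rw [← pow_mul]; ring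
      _ ≤ B ^ (2 * (n * n)) * B ^ 4 := by
          refine Nat.mul_le_mul_left _ ?_
          have e1 : B ^ 3 ≥ B := by
            calc B = B ^ 1 := (pow_one B).symm
              _ ≤ B ^ 3 := hpow (by omega)
          have e2 : B ^ 4 = B * B ^ 3 := by ring
          nlinarith
      _ = B ^ (2 * (n * n) + 4) := by ring
      _ ≤ B ^ a := hpow (by omega)
  · rintro ⟨i, j⟩ ⟨k, l⟩
    rw [Matrix.sub_apply, Matrix.kronecker_apply, Matrix.kronecker_apply,
      Matrix.transpose_apply]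
    have e1 : |N i k * (1 : Matrix d d ℤ) j l| ≤ (B : ℤ) := by
      rw [abs_mul]
      calc |N i k| * |(1 : Matrix d d ℤ) j l| ≤ (B : ℤ) * 1 :=
            mul_le_mul (Sz.hN i k) (h1 j l) (abs_nonneg _) (by positivity)
        _ = B := mul_one _
    have e2 : |(1 : Matrix d d ℤ) i k * N l j| ≤ (B : ℤ) := by
      rw [abs_mul]
      calc |(1 : Matrix d d ℤ) i k| * |N l j| ≤ 1 * (B : ℤ) :=
            mul_le_mul (h1 i k) (Sz.hN l j) (abs_nonneg _) (by positivity)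
        _ = B := one_mul _
    refine (abs_sub _ _).trans ((add_le_add e1 e2).trans ?_)
    have e3 : B + B ≤ B ^ a := by
      calc B + B ≤ B ^ 2 := by nlinarith
        _ ≤ B ^ a := hpow (by omega)
    exact_mod_cast e3
  · rintro ⟨i, j⟩
    exact RB.mono (RB.sub hB2 (Sz.hδ i) (Sz.hδ j)) (hpow (by omega))
  · rintro ⟨i, j⟩ ⟨k, l⟩
    rw [Matrix.kronecker_apply, Matrix.one_apply]
    split_ifs
    · rw [mul_one]
      exact hV.1 _ _ _ hBa (Sz.gH i k)
    · rw [mul_zero]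
      exact gtc_zero _ (Nat.one_le_pow _ _ hB1)
  · rintro ⟨i, j⟩ ⟨k, l⟩
    rw [Matrix.kronecker_apply, Matrix.one_apply]
    split_ifs
    · rw [mul_one]
      exact hV.1 _ _ _ hBa (Sz.gK i k)
    · rw [mul_zero]
      exact gtc_zero _ (Nat.one_le_pow _ _ hB1)


/-- GMQ -/
theorem gmq (hV : ValStmt) (hT : GtpStmt) (hG : GapStmt) (hS : SipStmt) (hSt : SatStmt) :
    GmqStmt := by
  intro m A
  obtain ⟨η, hη, hgf⟩ := gfp hV hT hG hS hSt m A
  refine ⟨η, hη, fun n => ?_⟩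
  obtain ⟨a1, ha1, hgau⟩ := gaugeP hV hT n
  obtain ⟨a2, ha2, hkr⟩ := kronP hV n
  obtain ⟨a3, hlow⟩ := hgf (n * n)
  refine ⟨a1 * a2 * a3 + a1 + 1, ?_⟩
  intro d _ _ H K N δ q Bm B Sz w hw hR
  have hB2 : 2 ≤ B := Sz.two
  have hB1 : 1 ≤ B := by omega
  have hBR : (1 : ℝ) ≤ B := by exact_mod_cast hB1
  have hpowR : ∀ {x y : ℕ}, x ≤ y → (B : ℝ) ^ x ≤ (B : ℝ) ^ y := fun h => pow_le_pow_right₀ hBR h
  obtain ⟨H0, K0, q', B', e1, e2, SzD, hD⟩ := hgau d H K N δ q Bm B Sz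
  obtain ⟨q2, B2, SzK, hone⟩ := hkr d _ _ _ _ _ _ (B ^ a1) SzD hD
  set u : d × d → ℤ := fun x => if x.1 = x.2 then 1 else 0 with hu
  have hNu : AA (N ⊗ₖ (1 : Matrix d d ℤ) - (1 : Matrix d d ℤ) ⊗ₖ Nᵀ)
      (fun x : d × d => δ x.1 - δ x.2) *ᵥ (fun i => (u i : ℚ)) = 0 := by
    rw [AA_kron]
    ext ⟨i, j⟩
    rw [Matrix.mulVec, dotProduct, Fintype.sum_prod_type]
    simp only [Matrix.sub_apply, Matrix.kronecker_apply, Matrix.transpose_apply, hu,
      Matrix.one_apply]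
    simp only [Int.cast_ite, Int.cast_one, Int.cast_zero, mul_ite, mul_one, mul_zero,
      Finset.sum_ite_eq, Finset.mem_univ, if_true, Pi.zero_apply]
    simp only [ite_mul, one_mul, zero_mul]
    rw [Finset.sum_sub_distrib]
    simp
  have huB : ∀ i, |u i| ≤ (((B ^ a1) ^ a2 : ℕ) : ℤ) := by
    intro i
    have h1 : (1 : ℤ) ≤ (((B ^ a1) ^ a2 : ℕ) : ℤ) := by
      exact_mod_cast Nat.one_le_pow _ _ (Nat.one_le_pow _ _ hB1)
    rw [hu]
    show |(if i.1 = i.2 then (1 : ℤ) else 0)| ≤ _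
    split_ifs
    · rw [abs_one]
      exact h1
    · rw [abs_zero]
      linarith
  have hLb0 := hlow (d × d) _ _ _ _ _ _ ((B ^ a1) ^ a2) SzK hone u huB hNu w hw (by
    refine le_trans ?_ hR
    push_cast
    rw [← pow_mul, ← pow_mul]
    refine hpowR ?_
    rw [← mul_assoc]
    omega)
  have hhv : hv ((cm K0 * H) ⊗ₖ (1 : Matrix d d (PowerSeries ℚ))) (fun j => (u j : ℚ)) =
      fun x : d × d => (cm K0 * H) x.1 x.2 := by
    funext x
    obtain ⟨i, j⟩ := x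
    unfold hv
    rw [Fintype.sum_prod_type]
    simp only [Matrix.kronecker_apply, hu, Matrix.one_apply]
    rw [Finset.sum_eq_single j, Finset.sum_eq_single j]
    · simp
    · intro l _ hl
      rw [if_neg (Ne.symm hl)]
      simp
    · intro h
      exact absurd (Finset.mem_univ _) h
    · intro k _ hk
      refine Finset.sum_eq_zero fun l _ => ?_
      by_cases h1 : k = l
      · subst h1
        rw [if_neg (Ne.symm hk)]
        simp
      · rw [if_neg h1]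
        simp
    · intro h
      exact absurd (Finset.mem_univ _) h
  rw [hhv] at hLb0
  -- the disc
  have hRa : (2 : ℝ) * ((B ^ a1 : ℕ) : ℝ) ≤ ‖w‖ := by
    refine le_trans ?_ hR
    have h2 : (2 : ℝ) ≤ B := by exact_mod_cast hB2
    push_cast
    calc 2 * (B : ℝ) ^ a1 ≤ B * (B : ℝ) ^ a1 := mul_le_mul_of_nonneg_right h2 (by positivity)
      _ = (B : ℝ) ^ (a1 + 1) := by ring
      _ ≤ (B : ℝ) ^ (a1 * a2 * a3 + a1 + 1) := hpowR (by omega)
  have hBpos : 1 ≤ B ^ a1 := Nat.one_le_pow _ _ hB1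
  have hBposR : (1 : ℝ) ≤ ((B ^ a1 : ℕ) : ℝ) := by exact_mod_cast hBpos
  have hac : ∀ i j, AC ((cm K0 * H) i j) w⁻¹ := by
    intro i j
    refine ac_of_sm ?_
    refine ((hV.2.1 (B ^ a1) ((cm K0 * H) i j) hBpos (SzD.gH i j)).1).mono ?_
    rw [abs_norm, abs_of_pos (by positivity), norm_inv,
      inv_le_comm₀ (by linarith) (by positivity), one_div, inv_inv]
    exact hRa
  have hH' : ∀ i j, H i j = ∑ k, PowerSeries.C (H0 i k) * (cm K0 * H) k j := by
    intro i j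
    have h2 : H = cm H0 * (cm K0 * H) := by
      rw [← Matrix.mul_assoc, ← map_mul, e1, map_one, one_mul]
    have h3 := congrFun (congrFun h2 i) j
    rw [Matrix.mul_apply] at h3
    rw [h3]
    rfl
  have hval : ∀ i j, evC (H i j) w⁻¹ = ∑ k, (H0 i k : ℂ) * evC ((cm K0 * H) k j) w⁻¹ := by
    intro i j
    rw [hH' i j, (ac_sum Finset.univ _ fun k _ => (evC_C_mul (H0 i k) (hac k j)).1).2]
    exact Finset.sum_congr rfl fun k _ => (evC_C_mul (H0 i k) (hac k j)).2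
  intro N' Z' hN hZ
  let φ := trE (IntermediateField.adjoin ℚ {w}) e1 e2
  have hφ : ∀ (a : d × d → IntermediateField.adjoin ℚ {w}) (x : d × d), ((φ a x :
      IntermediateField.adjoin ℚ {w}) : ℂ) = ∑ i, (H0 i x.1 : ℂ) * (a (i, x.2) : ℂ) := by
    intro a x
    have h1 : φ a x = ∑ i, algebraMap ℚ (IntermediateField.adjoin ℚ {w}) (H0 i x.1) *
      a (i, x.2) := rfl
    rw [h1]
    push_cast
    rfl
  have h1 := hLb0 (N'.map φ.toLinearMap) (Z'.map φ.toLinearMap) ?_ ?_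
  · rw [LinearEquiv.finrank_map_eq, LinearEquiv.finrank_map_eq] at h1
    exact h1
  · rintro _ ⟨a, ha, rfl⟩
    have h2 := hN a ha
    rw [Fintype.sum_prod_type] at h2 ⊢
    simp only [hval] at h2
    have h3 : ∀ i j, (((φ.toLinearMap a) (i, j) : IntermediateField.adjoin ℚ {w}) : ℂ) =
        ∑ k, (H0 k i : ℂ) * (a (k, j) : ℂ) := fun i j => hφ a (i, j)
    simp only [h3, Finset.sum_mul]
    simp only [Finset.mul_sum] at h2
    rw [← h2]
    rw [Finset.sum_comm]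
    rw [Finset.sum_comm (s := Finset.univ (α := d)) (t := Finset.univ (α := d))
      (f := fun i j => ∑ k, (a (i, j) : ℂ) * ((H0 i k : ℂ) * evC ((cm K0 * H) k j) w⁻¹))]
    refine Finset.sum_congr rfl fun j _ => ?_
    rw [Finset.sum_comm]
    refine Finset.sum_congr rfl fun i _ => Finset.sum_congr rfl fun k _ => ?_
    ring
  · intro p hp a ha
    have h5 : ∀ k j, (cm K0 * H) k j = ∑ i, PowerSeries.C (K0 k i) * H i j := by
      intro k j
      rw [Matrix.mul_apply]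
      rfl
    refine ⟨tr (IntermediateField.adjoin ℚ {w}) K0 a, ?_, tr_tr _ e2 a⟩
    refine hZ (fun x => ∑ k, C (K0 k x.1) * p (k, x.2)) ?_ _ ?_
    · rw [← hp, Fintype.sum_prod_type, Fintype.sum_prod_type]
      simp only [h5, Finset.mul_sum]
      have h6 : ∀ i j, (((∑ k, C (K0 k i) * p (k, j) : ℚ[X])) : PowerSeries ℚ) =
          ∑ k, PowerSeries.C (K0 k i) * ((p (k, j) : ℚ[X]) : PowerSeries ℚ) := by
        intro i j
        rw [← Polynomial.coeToPowerSeries.ringHom_apply, map_sum]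
        refine Finset.sum_congr rfl fun k _ => ?_
        rw [map_mul, Polynomial.coeToPowerSeries.ringHom_apply,
          Polynomial.coeToPowerSeries.ringHom_apply, Polynomial.coe_C]
      simp only [h6, Finset.sum_mul]
      rw [Finset.sum_comm]
      rw [Finset.sum_comm (s := Finset.univ (α := d)) (t := Finset.univ (α := d))
        (f := fun k j => ∑ i, ((p (k, j) : ℚ[X]) : PowerSeries ℚ) *
          (PowerSeries.C (K0 k i) * H i j))]
      refine Finset.sum_congr rfl fun j _ => ?_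
      rw [Finset.sum_comm]
      refine Finset.sum_congr rfl fun k _ => Finset.sum_congr rfl fun i _ => ?_
      ring
    · intro x
      rw [tr_apply]
      push_cast
      rw [map_sum]
      refine Finset.sum_congr rfl fun k _ => ?_
      rw [map_mul, aeval_C, ← ha (k, x.2)]
      rfl

end Pool.Agent.PSV.H21
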