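import Pool.Agent.PSV.StmtsS
import Pool.Agent.Helper21_PSV.GMQ

/-!
# Rows psv:GMQ, psv:GAE
-/

set_option autoImplicit false

namespace Pool.Agent.PSV.H21

theorem gmqS (hV : ValStmt) (hT : GtpStmt) (hG : GapStmt) (hS : SipStmt) (hSt : SatStmt) :
    Pool.Agent.PSV.GmqStmt := gmq hV hT hG hS hSt

theorem gae (hV : ValStmt) (hT : GtpStmt) : GaeStmt := by
  intro n
  obtain ⟨a, -, h⟩ := gaugeP hV hT n
  refine ⟨a, fun d _ _ H K N δ q Bm B Sz => ?_⟩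
  obtain ⟨H0, K0, q', B', e1, e2, S1, S2⟩ := h d H K N δ q Bm B Sz
  exact ⟨H0, K0, q', B', e1, e2, S1, S2.one⟩

theorem kre (hV : ValStmt) : KreStmt := by
  intro n
  obtain ⟨a, -, h⟩ := kronP hV n
  refine ⟨n * n, a, fun d _ _ H K N δ q Bm B Sz hone => ?_⟩
  exact h d H K N δ q Bm B Sz ⟨Sz.sys, hone⟩

end Pool.Agent.PSV.H21
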