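import Pool.Agent.Helper21_PSV.STP
import Pool.Agent.Helper21_MTN.Low

/-!
# The lower bound for the number of independent values at an algebraic point, explicit thresholds
-/

set_option autoImplicit false
set_option linter.unusedSectionVars false

namespace Pool.Agent.PSV.H21

open BigOperators Polynomial Matrix Pool.Agent.MT100 Pool.Agent.MT100.H76 Pool.Agent.MT100G
open Pool.Agent.MT100G.H76 Pool.Agent.MT100D Pool.Agent.MT100D.H78 Pool.Agent.MTN.H21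

/-- the final comparison -/
theorem beatP (r g A0 K : ℝ) (hr : 2 ≤ r) (hg1 : 1 ≤ g) (hg : g ≤ r) (hA0 : 0 ≤ A0) (hK : 0 ≤ K)
    (c c2 Q x m M L0 : ℕ) (h : (2 * Q * (M + c) + 1) * (x + 1) + 1 ≤ m * M - 1)
    (hall : ∀ L, L0 ≤ L → 1 ≤ K * ((r ^ Q) ^ (2 * (M * L + c * (m + (L + c2)))) * (A0 * g ^ L)) ^
      (x + 1) * (r⁻¹) ^ ((m * M - 1) * L)) : False := by
  refine beat r g (K * A0 ^ (x + 1)) hr hg1 hg (by positivity) c c2 Q x m M L0 h fun L hL => ?_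
  refine (hall L hL).trans ?_
  have hr0 : 0 ≤ r := by linarith
  have hr1 : 0 ≤ r⁻¹ := inv_nonneg.2 hr0
  refine mul_le_mul_of_nonneg_right ?_ (by positivity)
  have e1 : K * ((r ^ Q) ^ (2 * (M * L + c * (m + (L + c2)))) * (A0 * g ^ L)) ^ (x + 1) =
      K * A0 ^ (x + 1) * ((r ^ Q) ^ (2 * (M * L + c * (m + (L + c2)))) * g ^ L) ^ (x + 1) := by
    rw [mul_pow, mul_pow, mul_pow]
    ring
  rw [e1]
  refine mul_le_mul_of_nonneg_left ?_ (by positivity)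
  refine pow_le_pow_left₀ (by positivity) ?_ _
  refine mul_le_mul_of_nonneg_left ?_ (by positivity)
  exact pow_le_pow_right₀ hg1 (Nat.le_succ L)

/-- the lower bound -/
theorem lowP (hR : RecStmt) (hA : ZsaDStmt) (hV : ValStmt) (hT : GtpStmt) (hG : GapStmt)
    (hS : SipStmt) (hZp : ZspStmt) (hSt : SatStmt) (n : ℕ) : ∃ a : ℕ, 1 ≤ a ∧ ∀ (Q : ℕ), 1 ≤ Q →
    ∀ (d : Type) [Fintype d] [DecidableEq d]
    (H K : Matrix d d (PowerSeries ℚ)) (N : Matrix d d ℤ) (δ : d → ℚ) (q : ℤ[X]) (B : Matrix d d ℤ[X])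
    (B0 : ℕ), Siz n B0 H K N δ q B → GSysD H K N δ q B → ∀ u : d → ℤ, (∀ i, |u i| ≤ (B0 : ℤ)) →
    AA N δ *ᵥ (fun i => (u i : ℚ)) = 0 →
    ∀ h : d → PowerSeries ℚ, h = MT100G.hv H (fun j => (u j : ℚ)) →
    ∀ (F : Type) [Field F] [NumberField F] (σ : F →+* ℂ) (w : F) (a0 : ℕ),
      (B0 : ℝ) ^ a ≤ ‖σ w‖ → 0 < a0 → IsIntegral ℤ ((a0 : F) * w) → (a0 : ℝ) ≤ ‖σ w‖ ^ Q →
      (∀ τ : F →+* ℂ, ‖τ w‖ ≤ ‖σ w‖ ^ Q) → ∀ Nu Z : Submodule F (d → F),
      (∀ a ∈ Nu, ∑ i, σ (a i) * evC (h i) (σ w)⁻¹ = 0) →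
      (∀ p : d → ℚ[X], ∑ i, ((p i : ℚ[X]) : PowerSeries ℚ) * h i = 0 →
        (fun i => aeval w⁻¹ (p i)) ∈ Z) →
      Fintype.card d - Module.finrank F Z ≤
        6 * Q * Module.finrank ℚ F * (Fintype.card d - Module.finrank F Nu) := by
  obtain ⟨a, ah, hah, hstep0⟩ := stepP hR hA hV hT hG hS hZp n
  obtain ⟨a1, ha1⟩ : ∃ a1, a1 = a + 2 * ah + 2 := ⟨_, rfl⟩
  refine ⟨a1, by omega, ?_⟩
  intro Q hQ d _ _ H K N δ q B B0 Sz S u huB hu h hh
  by_cases hu0 : u = 0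
  · intro F _ _ σ w a0 _ _ _ _ _ Nu Z _ hZ
    have h0 : h = 0 := by
      rw [hh, hu0]
      funext i
      unfold MT100G.hv
      simp
    have h1 : Z = ⊤ := by
      rw [eq_top_iff]
      intro a _
      have h2 : ∀ i : d, (Pi.single i (1 : F) : d → F) ∈ Z := by
        intro i
        have h3 := hZ (Pi.single i 1) (by rw [h0]; simp)
        have h4 : (fun k => aeval w⁻¹ ((Pi.single i (1 : ℚ[X]) : d → ℚ[X]) k)) =
            (Pi.single i (1 : F) : d → F) := by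
          funext k
          by_cases hk : k = i
          · subst hk
            rw [Pi.single_eq_same, Pi.single_eq_same, map_one]
          · rw [Pi.single_eq_of_ne hk, Pi.single_eq_of_ne hk, map_zero]
        rwa [h4] at h3
      have h5 : a = ∑ i, a i • (Pi.single i (1 : F) : d → F) := by
        funext k
        rw [Finset.sum_apply]
        simp [Pi.single_apply]
      rw [h5]
      exact Z.sum_mem fun i _ => Z.smul_mem _ (h2 i)
    rw [h1, finrank_top, Module.finrank_fintype_fun_eq_card, Nat.sub_self]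
    exact Nat.zero_le _
  obtain ⟨i0, hi0⟩ : ∃ i0, u i0 ≠ 0 := by
    by_contra hc
    push Not at hc
    exact hu0 (funext hc)
  have hGh : ∀ i, GType (h i) := by
    intro i
    rw [hh]
    exact GType_hv S.gH _ i
  have hcc : PowerSeries.constantCoeff (h i0) = (u i0 : ℚ) := by
    rw [hh]
    exact hv_const S.one _ i0
  have hcc0 : PowerSeries.constantCoeff (h i0) ≠ 0 := by
    rw [hcc]
    exact_mod_cast hi0
  have hne0 : h i0 ≠ 0 := by
    intro h0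
    rw [h0, map_zero] at hcc0
    exact hcc0 rfl
  obtain ⟨I, e, ε, R, hI, hmax, hSat⟩ := hSt d h
  have hRB : RelB h R := SatB.relB hSat
  obtain ⟨m, hm⟩ : ∃ m, m = I.card := ⟨_, rfl⟩
  have hm1 : 1 ≤ m := by
    have h1 := hmax {i0} (fun p hp hr => by
      rw [Finset.sum_eq_single i0] at hr
      · have h2 := (mul_eq_zero.1 hr).resolve_right hne0
        have h3 : p i0 = 0 := Polynomial.coe_eq_zero_iff.1 h2
        funext i
        by_cases hi : i = i0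
        · rw [hi, h3]
          rfl
        · exact hp i (fun hc => hi (Finset.mem_singleton.1 hc))
      · intro i _ hi
        rw [hp i (fun hc => hi (Finset.mem_singleton.1 hc)), Polynomial.coe_zero, zero_mul]
      · intro hc
        exact absurd (Finset.mem_univ i0) hc)
    rw [Finset.card_singleton] at h1
    omega
  rw [← hm] at ε
  have hcard : Fintype.card d = m + e := by
    rw [Fintype.card_congr ε, Fintype.card_sum, Fintype.card_fin, Fintype.card_fin]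
  obtain ⟨hGTh, hstep1⟩ := hstep0 d H K N δ q B B0 Sz S u huB hu i0 hi0 h hh
  obtain ⟨c, hcn⟩ : ∃ c, c = n + 1 := ⟨_, rfl⟩
  obtain ⟨M, hM⟩ : ∃ M, M = 4 * c + 4 := ⟨_, rfl⟩
  obtain ⟨c2, A0, L0, hA01, hstep⟩ := hstep1 I m e hm hm1 ε R hI hSat c M hcn hM
  have hB2 : 2 ≤ B0 := Sz.two
  have hB1 : 1 ≤ B0 := by omega
  have hB0R : (2 : ℝ) ≤ B0 := by exact_mod_cast hB2
  have hB0R1 : (1 : ℝ) ≤ B0 := by linarith
  have hpow : ∀ {x y : ℕ}, x ≤ y → (B0 : ℝ) ^ x ≤ (B0 : ℝ) ^ y := fun h => pow_le_pow_right₀ hB0R1 h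
  obtain ⟨Bh, hBhd⟩ : ∃ Bh : ℕ, Bh = B0 ^ ah := ⟨_, rfl⟩
  have hBh1 : 1 ≤ Bh := by
    rw [hBhd]
    exact Nat.one_le_pow _ _ hB1
  rw [← hBhd] at hGTh
  have hBhR : (1 : ℝ) ≤ Bh := by exact_mod_cast hBh1
  have hBhR2 : (Bh : ℝ) = (B0 : ℝ) ^ ah := by
    rw [hBhd]
    push_cast
    rfl
  intro F _ _ σ w a0 hw ha0 haI haT hτ Nu Z hNu hZ
  have hwB : ∀ x : ℕ, x ≤ a1 → (B0 : ℝ) ^ x ≤ ‖σ w‖ := fun x hx => (hpow hx).trans hw
  have hwR : (B0 : ℝ) ^ a ≤ ‖σ w‖ := hwB _ (by omega)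
  have hw2 : 2 ≤ ‖σ w‖ := by
    have := hwB 1 (by omega)
    rw [pow_one] at this
    linarith
  have h4B : 4 * (Bh : ℝ) ^ 2 ≤ ‖σ w‖ := by
    refine le_trans ?_ (hwB (2 * ah + 2) (by omega))
    rw [hBhR2]
    have h1 : (4 : ℝ) ≤ (B0 : ℝ) ^ 2 := by nlinarith
    calc 4 * ((B0 : ℝ) ^ ah) ^ 2 ≤ (B0 : ℝ) ^ 2 * ((B0 : ℝ) ^ ah) ^ 2 :=
          mul_le_mul_of_nonneg_right h1 (by positivity)
      _ = (B0 : ℝ) ^ (2 * ah + 2) := by ring
  have hT : 1 ≤ ‖σ w‖ ^ Q := one_le_pow₀ (by linarith)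
  have hsm : ∀ i, Sm (h i) ‖(σ w)⁻¹‖ := by
    intro i
    refine ((hV.2.1 Bh (h i) hBh1 (hGTh i)).1).mono ?_
    rw [abs_norm, abs_of_pos (by positivity), norm_inv, inv_le_comm₀ (by linarith) (by positivity),
      one_div, inv_inv]
    nlinarith
  have hω0 : evC (h i0) (σ w)⁻¹ ≠ 0 := by
    refine hV.2.2.1 Bh (h i0) hBh1 (hGTh i0) ?_ _ ?_
    · rw [hcc, ← Int.cast_abs]
      exact_mod_cast Int.one_le_abs hi0
    · rw [norm_inv, inv_le_comm₀ (by linarith) (by positivity), one_div, inv_inv]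
      exact h4B
  -- the dimension of `Z`
  have hli := hSat.ev F w⁻¹
  have hZe : e ≤ Module.finrank F Z := by
    have h1 : LinearIndependent F (fun l : Fin e =>
        (⟨fun i => aeval w⁻¹ (R l i), hZ (R l) (hRB.rel l)⟩ : Z)) :=
      LinearIndependent.of_comp Z.subtype hli
    have h2 := h1.fintype_card_le_finrank
    rwa [Fintype.card_fin] at h2
  -- all the relations
  obtain ⟨Nf, hNf⟩ : ∃ Nf : Submodule F (d → F), ∀ a, a ∈ Nf ↔
      ∑ i, σ (a i) * evC (h i) (σ w)⁻¹ = 0 := ⟨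
    { carrier := {a | ∑ i, σ (a i) * evC (h i) (σ w)⁻¹ = 0}
      zero_mem' := by simp
      add_mem' := fun {a b} ha hb => by
        show ∑ i, σ (a i + b i) * evC (h i) (σ w)⁻¹ = 0
        simp only [map_add, add_mul, Finset.sum_add_distrib]
        rw [show ∑ i, σ (a i) * evC (h i) (σ w)⁻¹ = 0 from ha,
          show ∑ i, σ (b i) * evC (h i) (σ w)⁻¹ = 0 from hb, add_zero]
      smul_mem' := fun r a ha => by
        show ∑ i, σ (r * a i) * evC (h i) (σ w)⁻¹ = 0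
        simp only [map_mul, mul_assoc]
        rw [← Finset.mul_sum, show ∑ i, σ (a i) * evC (h i) (σ w)⁻¹ = 0 from ha, mul_zero] },
    fun a => Iff.rfl⟩
  have hle : Module.finrank F Nu ≤ Module.finrank F Nf :=
    Submodule.finrank_mono fun a ha => (hNf a).2 (hNu a ha)
  have hNfc : Module.finrank F Nf ≤ Fintype.card d := by
    have := Submodule.finrank_le Nf
    rwa [Module.finrank_fintype_fun_eq_card] at this
  obtain ⟨s, hs⟩ : ∃ s, s + Module.finrank F Nf = Fintype.card d :=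
    ⟨Fintype.card d - Module.finrank F Nf, by omega⟩
  obtain ⟨nn, hn⟩ : ∃ nn, nn = Module.finrank ℚ F := ⟨_, rfl⟩
  have hn1 : 1 ≤ nn := by
    rw [hn]
    exact Module.finrank_pos
  suffices hsm' : m ≤ 6 * Q * (s * nn) by
    have h1 : 6 * Q * (s * nn) ≤ 6 * Q * nn * (Fintype.card d - Module.finrank F Nu) := by
      have h2 : s ≤ Fintype.card d - Module.finrank F Nu := by omega
      calc 6 * Q * (s * nn) = 6 * Q * nn * s := by ring
        _ ≤ _ := Nat.mul_le_mul_left _ h2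
    rw [← hn]
    omega
  by_contra hlt
  have hlt' : 6 * Q * (s * nn) + 1 ≤ m := by omega
  obtain ⟨v, ω', hω, hinj⟩ := exists_coord σ (fun i => evC (h i) (σ w)⁻¹) Nf hNf s hs
  obtain ⟨j0, hj0⟩ : ∃ j0, ω' j0 ≠ 0 := by
    by_contra hc
    push Not at hc
    apply hω0
    have h1 := hω i0
    simp only [hc, mul_zero, Finset.sum_const_zero] at h1
    exact h1
  have hs1 : 1 ≤ s := Nat.one_le_iff_ne_zero.2 (fun h0 => by
    subst h0
    exact j0.elim0)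
  have hsn : 1 ≤ s * nn := Nat.mul_pos hs1 hn1
  obtain ⟨dn, hdn, hdv⟩ := exists_den (fun x : Fin s × d => v x.1 x.2)
  obtain ⟨V, hV1, hV⟩ : ∃ V : ℝ, 1 ≤ V ∧ ∀ (τ : F →+* ℂ) j i, ‖τ (v j i)‖ ≤ V := by
    refine ⟨1 + ∑ x : (F →+* ℂ) × (Fin s × d), ‖x.1 (v x.2.1 x.2.2)‖, ?_, fun τ j i => ?_⟩
    · have : 0 ≤ ∑ x : (F →+* ℂ) × (Fin s × d), ‖x.1 (v x.2.1 x.2.2)‖ :=
        Finset.sum_nonneg fun _ _ => norm_nonneg _
      linarith
    · have := Finset.single_le_sum (f := fun x : (F →+* ℂ) × (Fin s × d) => ‖x.1 (v x.2.1 x.2.2)‖)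
        (fun _ _ => norm_nonneg _) (Finset.mem_univ (τ, (j, i)))
      simp only at this
      linarith
  have hRl : ∀ l, (fun i => aeval w⁻¹ (R l i)) ∈ Nf := by
    intro l
    rw [hNf]
    have h1 := evC_form (R l) h (σ w)⁻¹ hsm
    rw [hRB.rel] at h1
    have h2 : evC 0 (σ w)⁻¹ = 0 := by
      unfold evC
      simp
    rw [h2] at h1
    rw [h1]
    refine Finset.sum_congr rfl fun i _ => ?_
    rw [← map_inv₀, sigma_aeval]
  refine beatP ‖σ w‖ ((B0 : ℝ) ^ a) A0 (((dn : ℝ) ^ s * ((s.factorial : ℝ) * (((Fintype.card d : ℝ) + 1) * V) ^ s)) ^ nn *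
    ((s : ℝ) / ‖ω' j0‖)) hw2 (one_le_pow₀ hB0R1) hwR (by linarith) (by positivity) c c2 Q (s * nn) m M L0
    (arith c Q (s * nn) m M hM hQ hsn hlt') fun L hL => ?_
  obtain ⟨P, hPinj, hPint, hPb, hPs⟩ :=
    hstep L hL F σ w a0 (‖σ w‖ ^ Q) hwR ha0 haI hT haT hτ
  obtain ⟨Bd, hBd⟩ : ∃ Bd, Bd = (‖σ w‖ ^ Q) ^ (2 * (M * L + c * (m + (L + c2)))) *
    (A0 * ((B0 : ℝ) ^ a) ^ L) := ⟨_, rfl⟩
  rw [← hBd] at hPb hPs
  have hBd1 : 1 ≤ Bd := by
    rw [hBd]
    exact one_le_mul_of_one_le_of_one_le (one_le_pow₀ hT)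
      (one_le_mul_of_one_le_of_one_le hA01 (one_le_pow₀ (one_le_pow₀ hB0R1)))
  have hfin := det_nf σ v dn hdn (fun j i => hdv (j, i)) V hV1 hV ω' j0 hj0 P hPint Bd hBd1 hPb
    (Bd * (‖σ w‖⁻¹) ^ ((m * M - 1) * L)) (fun k => by
      refine le_trans (le_of_eq ?_) (hPs k)
      congr 1
      refine Finset.sum_congr rfl fun i _ => ?_
      rw [hω i]) (fun cc hcc => by
      obtain ⟨h1, h2⟩ := hinj cc
      refine h2 fun i => ?_
      have h3 := hPinj (fun i => ∑ j, v j i * cc j) (fun k => by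
        rw [← hcc k]
        simp only [Finset.mul_sum, Finset.sum_mul]
        rw [Finset.sum_comm]
        refine Finset.sum_congr rfl fun j _ => Finset.sum_congr rfl fun i _ => ?_
        ring) (fun l => h1 _ (hRl l))
      exact congrFun h3 i)
  refine hfin.trans ?_
  rw [← hn]
  have e1 : ((dn : ℝ) ^ s * ((s.factorial : ℝ) * (((Fintype.card d : ℝ) + 1) * (Bd * V)) ^ s)) ^ nn *
      ((s : ℝ) * (Bd * (‖σ w‖⁻¹) ^ ((m * M - 1) * L)) / ‖ω' j0‖) =
      ((dn : ℝ) ^ s * ((s.factorial : ℝ) * (((Fintype.card d : ℝ) + 1) * V) ^ s)) ^ nn *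
      ((s : ℝ) / ‖ω' j0‖) * Bd ^ (s * nn + 1) * (‖σ w‖⁻¹) ^ ((m * M - 1) * L) := by
    have e2 : (((Fintype.card d : ℝ) + 1) * (Bd * V)) ^ s =
        (((Fintype.card d : ℝ) + 1) * V) ^ s * Bd ^ s := by
      rw [← mul_pow]
      congr 1
      ring
    rw [e2, ← mul_assoc, ← mul_assoc, mul_pow, ← pow_mul, mul_assoc ((dn : ℝ) ^ s), pow_succ]
    ring
  rw [e1]
  refine mul_le_mul_of_nonneg_right ?_ (by positivity)
  refine mul_le_mul_of_nonneg_left ?_ (by positivity)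
  refine pow_le_pow_left₀ (by linarith) ?_ _
  rw [hBd]

end Pool.Agent.PSV.H21
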