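import Pool.Agent.Helper21_PSV.ZSP

/-!
# Integral rows at an algebraic point, explicit constants
-/

set_option autoImplicit false
set_option linter.unusedSectionVars false

namespace Pool.Agent.PSV.H21

open BigOperators Polynomial Matrix Pool.Agent.MT100 Pool.Agent.MT100.H76 Pool.Agent.MT100G
open Pool.Agent.MT100G.H76 Pool.Agent.MT100D Pool.Agent.MT100D.H78 Pool.Agent.MTN.H21

/-- nonnegative and at most geometric with the ratio `g` -/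
def EB (g : ℝ) (f : ℕ → ℝ) : Prop := ∃ A : ℝ, 0 ≤ A ∧ ∀ L, 0 ≤ f L ∧ f L ≤ A * g ^ L

theorem EB.mul {g g' : ℝ} {f f' : ℕ → ℝ} (h : EB g f) (h' : EB g' f') :
    EB (g * g') (fun L => f L * f' L) := by
  obtain ⟨A, hA, h⟩ := h
  obtain ⟨A', hA', h'⟩ := h'
  refine ⟨A * A', mul_nonneg hA hA', fun L => ⟨mul_nonneg (h L).1 (h' L).1, ?_⟩⟩
  rw [mul_pow]
  calc f L * f' L ≤ (A * g ^ L) * (A' * g' ^ L) :=
        mul_le_mul (h L).2 (h' L).2 (h' L).1 ((h L).1.trans (h L).2)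
    _ = A * A' * (g ^ L * g' ^ L) := by ring

theorem EB.mono {g g' : ℝ} {f : ℕ → ℝ} (h : EB g f) (hg : 0 ≤ g) (hgg : g ≤ g') : EB g' f := by
  obtain ⟨A, hA, h⟩ := h
  refine ⟨A, hA, fun L => ⟨(h L).1, (h L).2.trans ?_⟩⟩
  exact mul_le_mul_of_nonneg_left (pow_le_pow_left₀ hg hgg L) hA

theorem EB.add {g : ℝ} {f f' : ℕ → ℝ} (h : EB g f) (h' : EB g f') :
    EB g (fun L => f L + f' L) := by
  obtain ⟨A, hA, h⟩ := h
  obtain ⟨A', hA', h'⟩ := h'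
  refine ⟨A + A', add_nonneg hA hA', fun L => ⟨add_nonneg (h L).1 (h' L).1, ?_⟩⟩
  rw [add_mul]
  exact add_le_add (h L).2 (h' L).2

theorem EB.const {x : ℝ} (hx : 0 ≤ x) : EB 1 (fun _ => x) :=
  ⟨x, hx, fun L => ⟨hx, by rw [one_pow, mul_one]⟩⟩

theorem EB.lin (M : ℕ) : EB 2 (fun L => (M : ℝ) * L + 1) := by
  refine ⟨M + 1, by positivity, fun L => ⟨by positivity, ?_⟩⟩
  have h1 : (L : ℝ) + 1 ≤ 2 ^ L := by
    have : L + 1 ≤ 2 ^ L := Nat.lt_two_pow_self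
    exact_mod_cast this
  have hM : (0 : ℝ) ≤ M := Nat.cast_nonneg M
  have hL : (0 : ℝ) ≤ L := Nat.cast_nonneg L
  calc (M : ℝ) * L + 1 ≤ (M + 1) * (L + 1) := by nlinarith
    _ ≤ (M + 1) * 2 ^ L := mul_le_mul_of_nonneg_left h1 (by positivity)

theorem EB.geom {C : ℝ} (hC : 0 ≤ C) (f : ℕ → ℕ) (α β : ℕ) (h : ∀ L, f L = α * L + β) :
    EB (C ^ α) (fun L => C ^ f L) := by
  refine ⟨C ^ β, pow_nonneg hC _, fun L => ⟨pow_nonneg hC _, le_of_eq ?_⟩⟩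
  show C ^ f L = C ^ β * (C ^ α) ^ L
  rw [h, pow_add, pow_mul]
  ring

/-- the entries of the vector `H u` -/
theorem hv_gtc (hV : ValStmt) (hT : GtpStmt) (n : ℕ) : ∃ a : ℕ, 1 ≤ a ∧ ∀ (d : Type) [Fintype d]
    [DecidableEq d] (H : Matrix d d (PowerSeries ℚ)) (B : ℕ), 2 ≤ B → Fintype.card d ≤ n →
    (∀ i j, GTC B (H i j)) → ∀ u : d → ℤ, (∀ i, |u i| ≤ (B : ℤ)) →
    ∀ i, GTC (B ^ a) (hv H (fun j => (u j : ℚ)) i) := by
  obtain ⟨a4, h4⟩ := hT.2.2.2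
  obtain ⟨a2, h2⟩ := hT.2.1 n
  refine ⟨((a4 + 1) * 4) * a2 + 1, by omega, ?_⟩
  intro d _ _ H B hB hd hH u hu i
  have hB1 : 1 ≤ B := by omega
  refine hV.1 _ _ _ (Nat.pow_le_pow_right hB1 (Nat.le_succ (((a4 + 1) * 4) * a2))) ?_
  have hX : B ≤ B ^ (a4 + 1) := by
    calc B = B ^ 1 := (pow_one B).symm
      _ ≤ B ^ (a4 + 1) := Nat.pow_le_pow_right hB1 (by omega)
  have hY : B ≤ B ^ ((a4 + 1) * 4) := by
    calc B = B ^ 1 := (pow_one B).symm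
      _ ≤ B ^ ((a4 + 1) * 4) := Nat.pow_le_pow_right hB1 (by omega)
  have hterm : ∀ j, GTC (B ^ ((a4 + 1) * 4)) (H i j * PowerSeries.C (u j : ℚ)) := by
    intro j
    rw [pow_mul]
    refine (hT.1 _ _ _ (by omega) ?_ ?_).1
    · exact hV.1 _ _ _ hX (hH i j)
    · refine hV.1 _ _ _ (Nat.pow_le_pow_right hB1 (Nat.le_succ a4)) (h4 B (u j : ℚ) hB ⟨?_, ?_⟩)
      · rw [Rat.den_intCast]
        exact hB1
      · rw [← Int.cast_abs]
        exact_mod_cast hu j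
  rw [pow_mul]
  exact (h2 d _ _ (by omega) hd hterm).1

theorem nrm_PB {n B : ℕ} {p : ℤ[X]} (h : PB n B p) : nrm (zq p) ≤ ((n : ℚ) + 1) * B := by
  have := nrm_zq_le p n (B : ℤ) h.1 h.2
  simpa using this

theorem n1_le (n B : ℕ) (hB : 2 ≤ B) : (n + 1) * B ≤ B ^ (n + 1) := by
  have h1 : n + 1 ≤ B ^ n := by
    calc n + 1 ≤ 2 ^ n := Nat.lt_two_pow_self
      _ ≤ B ^ n := Nat.pow_le_pow_left hB n
  rw [pow_succ]
  exact Nat.mul_le_mul_right B h1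

/-- the integral rows at an algebraic point -/
theorem stepP (hR : RecStmt) (hA : ZsaDStmt) (hV : ValStmt) (hT : GtpStmt) (hG : GapStmt)
    (hS : SipStmt) (hZ : ZspStmt) (n : ℕ) : ∃ a ah : ℕ, ah + 2 ≤ a ∧ ∀ (d : Type) [Fintype d]
    [DecidableEq d]
    (H K : Matrix d d (PowerSeries ℚ)) (N : Matrix d d ℤ) (δ : d → ℚ) (q : ℤ[X]) (B : Matrix d d ℤ[X])
    (B0 : ℕ), Siz n B0 H K N δ q B → GSysD H K N δ q B → ∀ u : d → ℤ, (∀ i, |u i| ≤ (B0 : ℤ)) →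
    AA N δ *ᵥ (fun i => (u i : ℚ)) = 0 → ∀ i0 : d, u i0 ≠ 0 →
    ∀ h : d → PowerSeries ℚ, h = hv H (fun j => (u j : ℚ)) → (∀ i, GTC (B0 ^ ah) (h i)) ∧
    ∀ (I : Finset d) (m e : ℕ),
    m = I.card → 1 ≤ m → ∀ (ε : d ≃ Fin m ⊕ Fin e) (R : Fin e → d → ℚ[X]),
    Ind h I → SatB h R → ∀ (c M : ℕ), c = n + 1 → M = 4 * c + 4 →
    ∃ (c2 : ℕ) (A0 : ℝ) (L0 : ℕ), 1 ≤ A0 ∧
      ∀ L, L0 ≤ L → ∀ (F : Type) [Field F] [NumberField F] (σ : F →+* ℂ) (w : F) (a0 : ℕ) (T : ℝ),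
        (B0 : ℝ) ^ a ≤ ‖σ w‖ → 0 < a0 → IsIntegral ℤ ((a0 : F) * w) → 1 ≤ T → (a0 : ℝ) ≤ T →
        (∀ τ : F →+* ℂ, ‖τ w‖ ≤ T) →
        ∃ v : Fin (m + (L + c2)) → d → F,
        (∀ y : d → F, (∀ k, ∑ i, v k i * y i = 0) →
          (∀ l, ∑ i, aeval w⁻¹ (R l i) * y i = 0) → y = 0) ∧
        (∀ k i, IsIntegral ℤ (v k i)) ∧
        (∀ (τ : F →+* ℂ) k i, ‖τ (v k i)‖ ≤
          T ^ (2 * (M * L + c * (m + (L + c2)))) * (A0 * ((B0 : ℝ) ^ a) ^ L)) ∧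
        (∀ k, ‖∑ i, σ (v k i) * evC (h i) (σ w)⁻¹‖ ≤
          T ^ (2 * (M * L + c * (m + (L + c2)))) * (A0 * ((B0 : ℝ) ^ a) ^ L) *
            (‖σ w‖⁻¹) ^ ((m * M - 1) * L)) := by
  obtain ⟨ah, hah1, hgtc⟩ := hv_gtc hV hT n
  obtain ⟨ag, hgap⟩ := hG n
  obtain ⟨as, hsie⟩ := hS n (4 * (n + 1) + 4) (by omega)
  obtain ⟨a, ha⟩ : ∃ a, a = 2 * ag + ah * as + (4 * (n + 1) + 4) + (ah + 2) * (n * (4 * (n + 1) + 4)) +
      ah + n + 10 := ⟨_, rfl⟩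
  refine ⟨a, ah, by omega, ?_⟩
  intro d _ _ H K N δ q B B0 Sz S u huB hu i0 hi0 h hh
  have hB2 : 2 ≤ B0 := Sz.two
  have hB1 : 1 ≤ B0 := by omega
  have hGTh : ∀ i, GTC (B0 ^ ah) (h i) := by
    intro i
    rw [hh]
    exact hgtc d H B0 hB2 Sz.card Sz.gH u huB i
  refine ⟨hGTh, ?_⟩
  intro I m e hm hm1 ε R hI hSat c M hcn hM
  have hmn : m ≤ n := by
    rw [hm]
    exact (Finset.card_le_univ I).trans Sz.card
  obtain ⟨uq, huq⟩ : ∃ uq : d → ℚ, uq = fun j => (u j : ℚ) := ⟨_, rfl⟩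
  rw [← huq] at hh
  have huN : AA N δ *ᵥ uq = 0 := by
    rw [huq]
    exact hu
  -- the degree bound
  have hc1 : (X * zq q).natDegree ≤ c := by
    refine natDegree_mul_le.trans ?_
    rw [natDegree_X, natDegree_zq]
    have := Sz.hq.1
    omega
  have hc2 : ∀ i j, (zq (B i j)).natDegree ≤ c := by
    intro i j
    rw [natDegree_zq]
    have := (Sz.hM i j).1
    omega
  have hM3 : 3 ≤ M := by omega
  have hMe : 4 * (n + 1) + 4 = M := by omega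
  rw [hMe] at ha hsie
  have hne : Nonempty {i // i ∈ I} := by
    have : 0 < I.card := by omega
    obtain ⟨i, hi⟩ := Finset.card_pos.1 this
    exact ⟨⟨i, hi⟩⟩
  -- the constants
  obtain ⟨Cg, hCgd⟩ : ∃ Cg : ℕ, Cg = B0 ^ ag := ⟨_, rfl⟩
  have hCg0 : 1 ≤ Cg := by
    rw [hCgd]
    exact Nat.one_le_pow _ _ hB1
  have hCg := hgap d H K N δ q B B0 Sz
  rw [← hCgd] at hCg
  obtain ⟨Bh, hBhd⟩ : ∃ Bh : ℕ, Bh = B0 ^ ah := ⟨_, rfl⟩
  have hBh1 : 1 ≤ Bh := by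
    rw [hBhd]
    exact Nat.one_le_pow _ _ hB1
  have hBh2 : 2 ≤ Bh := by
    rw [hBhd]
    calc 2 ≤ B0 := hB2
      _ = B0 ^ 1 := (pow_one B0).symm
      _ ≤ B0 ^ ah := Nat.pow_le_pow_right hB1 hah1
  obtain ⟨Cs, hCsd⟩ : ∃ Cs : ℕ, Cs = Bh ^ as := ⟨_, rfl⟩
  have hCs0 : 1 ≤ Cs := by
    rw [hCsd]
    exact Nat.one_le_pow _ _ hBh1
  have hCsB : Cs = B0 ^ (ah * as) := by
    rw [hCsd, hBhd, pow_mul]
  rw [← hBhd] at hGTh
  have hCs := hsie {i // i ∈ I} (fun l => h l.1) Bh hBh2 (by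
    rw [Fintype.card_coe, ← hm]
    exact hmn) (fun l => hGTh _)
  rw [Fintype.card_coe, ← hm, ← hCsd] at hCs
  obtain ⟨c0, hc0⟩ := hA d H K N δ q B S uq huN m e ε R (by rw [← hh]; exact SatB.relB hSat)
  obtain ⟨c2, hzb⟩ := hZ d H K N δ q B S uq huN m e ε R (by rw [← hh]; exact hSat)
  rw [← hh] at hc0 hzb
  have hBhR : (1 : ℝ) ≤ Bh := by exact_mod_cast hBh1
  obtain ⟨ρ, hρd⟩ : ∃ ρ : ℝ, ρ = 1 / (4 * Bh) := ⟨_, rfl⟩
  have hρ : 0 < ρ := by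
    rw [hρd]
    positivity
  have h2ρe : 2 * ρ = 1 / (2 * Bh) := by
    rw [hρd]
    field_simp
    norm_num
  have hρ1 : 2 * ρ ≤ 1 := by
    rw [h2ρe, div_le_one (by positivity)]
    linarith
  have hρh : ∀ i, Sm (h i) (2 * ρ) := by
    intro i
    rw [h2ρe]
    exact (hV.2.1 Bh (h i) hBh1 (hGTh i)).1
  obtain ⟨h0, hh0d⟩ : ∃ h0 : ℝ, h0 = 2 * Bh := ⟨_, rfl⟩
  have hh0 : 0 ≤ h0 := by
    rw [hh0d]
    positivity
  have hhn : ∀ i, Nm (h i) (2 * ρ) ≤ h0 := by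
    intro i
    rw [h2ρe, hh0d]
    exact (hV.2.1 Bh (h i) hBh1 (hGTh i)).2
  obtain ⟨Q, hQd⟩ : ∃ Q : ℝ, Q = (((n + 1) * B0 : ℕ) : ℝ) := ⟨_, rfl⟩
  have hQ1 : 1 ≤ Q := by
    rw [hQd]
    exact_mod_cast Nat.mul_pos (Nat.succ_pos n) (by omega)
  have hQ : ((nrm (zq q) : ℚ) : ℝ) ≤ Q := by
    rw [hQd]
    have h1 : ((nrm (zq q) : ℚ) : ℝ) ≤ _ := Rat.cast_le.2 (nrm_PB Sz.hq)
    refine h1.trans (le_of_eq ?_)
    push_cast
    ring
  have hρi : 1 ≤ ρ⁻¹ := by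
    rw [one_le_inv₀ hρ]
    linarith
  have hCg1 : (1 : ℝ) ≤ Cg := by exact_mod_cast hCg0
  have hCs1 : (1 : ℝ) ≤ Cs := by exact_mod_cast hCs0
  -- the size of `u`
  obtain ⟨U, hUd⟩ : ∃ U : ℕ, U = B0 := ⟨_, rfl⟩
  have hU : ∀ s, (u s).natAbs ≤ U := by
    intro s
    rw [hUd]
    have := huB s
    rw [Int.abs_eq_natAbs] at this
    exact_mod_cast this
  let TT : ℕ → ℕ := fun L => m + (L + c2)
  let A : ℕ → ℝ := fun L => (Fintype.card (d × d) : ℝ) *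
    (((M : ℝ) * L + 1) * ((U : ℝ) * (Cs : ℝ) ^ L))
  let V : ℕ → ℝ := fun L => (Cg : ℝ) ^ (TT L + 1) * (A L * 2 ^ (M * L) * (Cg : ℝ) ^ (TT L + 1))
  let W : ℕ → ℝ := fun L => (Cg : ℝ) ^ (TT L + 1) *
    ((ρ⁻¹) ^ ((m * M - 1) * L) * (Q ^ TT L * (A L * h0)))
  have hexpA : EB (1 * (2 * (1 * (Cs : ℝ) ^ 1))) A := (EB.const (Nat.cast_nonneg _)).mul
    ((EB.lin M).mul ((EB.const (Nat.cast_nonneg U)).mul
      (EB.geom (by linarith) (fun L => L) 1 0 (fun L => by ring))))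
  have hexpC : EB ((Cg : ℝ) ^ 1) (fun L => (Cg : ℝ) ^ (TT L + 1)) :=
    EB.geom (by linarith) (fun L => TT L + 1) 1 (m + c2 + 1) (fun L => by simp only [TT]; ring)
  have hexpV : EB ((Cg : ℝ) ^ 1 * ((1 * (2 * (1 * (Cs : ℝ) ^ 1))) * 2 ^ M * (Cg : ℝ) ^ 1)) V := by
    have h2 : EB ((2 : ℝ) ^ M) (fun L => (2 : ℝ) ^ (M * L)) :=
      EB.geom zero_le_two (fun L => M * L) M 0 (fun L => by ring)
    exact hexpC.mul ((hexpA.mul h2).mul hexpC)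
  have hexpW : EB ((Cg : ℝ) ^ 1 * ((ρ⁻¹) ^ (m * M - 1) * (Q ^ 1 * ((1 * (2 * (1 * (Cs : ℝ) ^ 1))) * 1))))
      W := by
    have h2 : EB ((ρ⁻¹ : ℝ) ^ (m * M - 1)) (fun L => (ρ⁻¹ : ℝ) ^ ((m * M - 1) * L)) :=
      EB.geom (by linarith) (fun L => (m * M - 1) * L) (m * M - 1) 0 (fun L => by ring)
    have h3 : EB (Q ^ 1) (fun L => Q ^ TT L) :=
      EB.geom (by linarith) TT 1 (m + c2) (fun L => by simp only [TT]; ring)
    exact hexpC.mul (h2.mul (h3.mul (hexpA.mul (EB.const hh0))))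
  -- the ratio
  obtain ⟨g, hgd⟩ : ∃ g : ℝ, g = (B0 : ℝ) ^ a := ⟨_, rfl⟩
  have hB0R : (2 : ℝ) ≤ B0 := by exact_mod_cast hB2
  have hB0R1 : (1 : ℝ) ≤ B0 := by linarith
  have hpow : ∀ {x y : ℕ}, x ≤ y → (B0 : ℝ) ^ x ≤ (B0 : ℝ) ^ y := fun h => pow_le_pow_right₀ hB0R1 h
  have hg1 : 1 ≤ g := by
    rw [hgd]
    exact one_le_pow₀ hB0R1
  have hCgR : (Cg : ℝ) = (B0 : ℝ) ^ ag := by
    rw [hCgd]
    push_cast
    rfl
  have hCsR : (Cs : ℝ) = (B0 : ℝ) ^ (ah * as) := by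
    rw [hCsB]
    push_cast
    rfl
  have hρR : ρ⁻¹ ≤ (B0 : ℝ) ^ (ah + 2) := by
    rw [hρd, one_div, inv_inv, hBhd]
    push_cast
    have h1 : (4 : ℝ) ≤ (B0 : ℝ) ^ 2 := by nlinarith
    calc 4 * (B0 : ℝ) ^ ah ≤ (B0 : ℝ) ^ 2 * (B0 : ℝ) ^ ah :=
          mul_le_mul_of_nonneg_right h1 (by positivity)
      _ = (B0 : ℝ) ^ (ah + 2) := by ring
  have hQR : Q ≤ (B0 : ℝ) ^ (n + 1) := by
    rw [hQd]
    exact_mod_cast n1_le n B0 hB2
  have h2M : (2 : ℝ) ^ M ≤ (B0 : ℝ) ^ M := pow_le_pow_left₀ zero_le_two hB0R M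
  have hmM : m * M - 1 ≤ n * M := (Nat.sub_le _ _).trans (Nat.mul_le_mul_right M hmn)
  have hrV : (Cg : ℝ) ^ 1 * ((1 * (2 * (1 * (Cs : ℝ) ^ 1))) * 2 ^ M * (Cg : ℝ) ^ 1) ≤ g := by
    rw [pow_one, pow_one, one_mul, one_mul, hCgR, hCsR, hgd]
    calc (B0 : ℝ) ^ ag * (2 * (B0 : ℝ) ^ (ah * as) * 2 ^ M * (B0 : ℝ) ^ ag)
        ≤ (B0 : ℝ) ^ ag * ((B0 : ℝ) * (B0 : ℝ) ^ (ah * as) * (B0 : ℝ) ^ M * (B0 : ℝ) ^ ag) := by
          refine mul_le_mul_of_nonneg_left ?_ (by positivity)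
          refine mul_le_mul_of_nonneg_right ?_ (by positivity)
          exact mul_le_mul (mul_le_mul_of_nonneg_right hB0R (by positivity)) h2M (by positivity)
            (by positivity)
      _ = (B0 : ℝ) ^ (2 * ag + ah * as + M + 1) := by ring
      _ ≤ (B0 : ℝ) ^ a := hpow (by omega)
  have hrW : (Cg : ℝ) ^ 1 * ((ρ⁻¹) ^ (m * M - 1) * (Q ^ 1 * ((1 * (2 * (1 * (Cs : ℝ) ^ 1))) * 1))) ≤
      g := by
    rw [pow_one, pow_one, pow_one, one_mul, one_mul, mul_one, hCgR, hCsR, hgd]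
    have h1 : (ρ⁻¹) ^ (m * M - 1) ≤ (B0 : ℝ) ^ ((ah + 2) * (n * M)) := by
      calc (ρ⁻¹) ^ (m * M - 1) ≤ (ρ⁻¹) ^ (n * M) := pow_le_pow_right₀ hρi hmM
        _ ≤ ((B0 : ℝ) ^ (ah + 2)) ^ (n * M) := pow_le_pow_left₀ (by linarith) hρR _
        _ = (B0 : ℝ) ^ ((ah + 2) * (n * M)) := by rw [← pow_mul]
    calc (B0 : ℝ) ^ ag * ((ρ⁻¹) ^ (m * M - 1) * (Q * (2 * (B0 : ℝ) ^ (ah * as))))
        ≤ (B0 : ℝ) ^ ag * ((B0 : ℝ) ^ ((ah + 2) * (n * M)) * ((B0 : ℝ) ^ (n + 1) *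
            ((B0 : ℝ) * (B0 : ℝ) ^ (ah * as)))) := by
          refine mul_le_mul_of_nonneg_left ?_ (by positivity)
          refine mul_le_mul h1 ?_ (by positivity) (by positivity)
          exact mul_le_mul hQR (mul_le_mul_of_nonneg_right hB0R (by positivity)) (by positivity)
            (by positivity)
      _ = (B0 : ℝ) ^ (ag + (ah + 2) * (n * M) + (n + 1) + 1 + ah * as) := by ring
      _ ≤ (B0 : ℝ) ^ a := hpow (by omega)
  have hC0 : (0 : ℝ) ≤ Cg := by linarith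
  have hC0s : (0 : ℝ) ≤ Cs := by linarith
  have hρ0 : 0 ≤ ρ⁻¹ := by linarith
  have hQ0 : 0 ≤ Q := by linarith
  have hEV : EB g V := hexpV.mono (by positivity) hrV
  have hEW : EB g W := hexpW.mono (by positivity) hrW
  have hEU : EB g (fun L => (U : ℝ) * W L) := by
    have := (EB.const (Nat.cast_nonneg (α := ℝ) U)).mul hEW
    rwa [one_mul] at this
  obtain ⟨A1, hA1, hEG⟩ := ((EB.const zero_le_one).mono zero_le_one hg1).add (hEV.add hEU)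
  have hA0 : ∀ L, 0 ≤ A L := fun L => by simp only [A]; positivity
  have hV0 : ∀ L, 0 ≤ V L := fun L => by
    have := hA0 L
    simp only [V]
    positivity
  have hW0 : ∀ L, 0 ≤ W L := fun L => by
    have := hA0 L
    simp only [W]
    positivity
  have hU0 : |((u i0 : ℤ) : ℝ)| ≤ U := by
    have h1 := hU i0
    have h2 : |((u i0 : ℤ) : ℝ)| = (((u i0).natAbs : ℕ) : ℝ) := by
      rw [Nat.cast_natAbs]
      push_cast
      rfl
    rw [h2]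
    exact_mod_cast h1
  have hu1 : (1 : ℚ) ≤ |uq i0| := by
    rw [huq]
    have := Int.one_le_abs hi0
    show (1 : ℚ) ≤ |((u i0 : ℤ) : ℚ)|
    rw [← Int.cast_abs]
    exact_mod_cast this
  refine ⟨c2, 1 + A1, c0 + 1, by linarith, ?_⟩
  intro L hL F _ _ σ w a0 T hw ha0 haI hT haT hτ
  have hGG : 1 + (V L + (U : ℝ) * W L) ≤ (1 + A1) * ((B0 : ℝ) ^ a) ^ L := by
    refine (hEG L).2.trans ?_
    rw [hgd]
    exact mul_le_mul_of_nonneg_right (by linarith) (by positivity)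
  have hnn : (0 : ℝ) ≤ T ^ (2 * (M * L + c * (m + (L + c2)))) := by positivity
  suffices hmain : ∃ v : Fin (m + (L + c2)) → d → F,
        (∀ y : d → F, (∀ k, ∑ i, v k i * y i = 0) →
          (∀ l, ∑ i, aeval w⁻¹ (R l i) * y i = 0) → y = 0) ∧
        (∀ k i, IsIntegral ℤ (v k i)) ∧
        (∀ (τ : F →+* ℂ) k i, ‖τ (v k i)‖ ≤
          T ^ (2 * (M * L + c * (m + (L + c2)))) * (1 + (V L + (U : ℝ) * W L))) ∧
        (∀ k, ‖∑ i, σ (v k i) * evC (h i) (σ w)⁻¹‖ ≤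
          T ^ (2 * (M * L + c * (m + (L + c2)))) * (1 + (V L + (U : ℝ) * W L)) *
            (‖σ w‖⁻¹) ^ ((m * M - 1) * L)) by
    obtain ⟨v, hv1, hv2, hv3, hv4⟩ := hmain
    refine ⟨v, hv1, hv2, fun τ k i => (hv3 τ k i).trans ?_, fun k => (hv4 k).trans ?_⟩
    · exact mul_le_mul_of_nonneg_left hGG hnn
    · exact mul_le_mul_of_nonneg_right (mul_le_mul_of_nonneg_left hGG hnn) (by positivity)
  have hwB : ∀ x : ℕ, x ≤ a → (B0 : ℝ) ^ x ≤ ‖σ w‖ := fun x hx => (hpow hx).trans hw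
  have hw1 : 1 ≤ ‖σ w‖ := (one_le_pow₀ hB0R1).trans hw
  have hw3 : ρ⁻¹ ≤ ‖σ w‖ := hρR.trans (hwB _ (by omega))
  have hw0 : w ≠ 0 := by
    rintro rfl
    rw [map_zero, norm_zero] at hw1
    linarith
  have hξ0 : w⁻¹ ≠ 0 := inv_ne_zero hw0
  have hGξ : aeval w⁻¹ (zq q) ≠ 0 := by
    intro h0
    refine hV.2.2.2 n B0 q S.q0 Sz.hq (σ w)⁻¹ ?_ ?_ ?_
    · rw [← map_inv₀]
      exact (map_ne_zero σ).2 hξ0
    · have h1 : (B0 : ℝ) ^ (n + 2) ≤ ‖σ w‖ := hwB _ (by omega)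
      have h2 : (((n + 1) * B0 : ℕ) : ℝ) ≤ (B0 : ℝ) ^ (n + 1) := by
        rw [← hQd]
        exact hQR
      have h3 : (B0 : ℝ) ^ (n + 1) < (B0 : ℝ) ^ (n + 2) := by
        rw [pow_succ _ (n + 1)]
        have : (0 : ℝ) < (B0 : ℝ) ^ (n + 1) := by positivity
        nlinarith
      push_cast at h2
      rw [norm_inv, inv_mul_lt_iff₀ (by linarith)]
      linarith
    · rw [← map_inv₀, sigma_aeval, h0, map_zero]
  have hL1 : 1 ≤ L := by omega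
  obtain ⟨P', hP0, hPd, hPc⟩ := hCs L hL1
  obtain ⟨P, hP⟩ : ∃ P : d → ℤ[X], P = fun i => if hi : i ∈ I then P' ⟨i, hi⟩ else 0 := ⟨_, rfl⟩
  have hPin : ∀ l : {i // i ∈ I}, P l.1 = P' l := by
    intro l
    rw [hP]
    exact dif_pos l.2
  have hPout : ∀ i, i ∉ I → P i = 0 := by
    intro i hi
    rw [hP]
    exact dif_neg hi
  have hPdc : ∀ i, (P i).natDegree ≤ M * L ∧ ∀ k, |(P i).coeff k| ≤ (Cs : ℤ) ^ L := by
    intro i
    by_cases hi : i ∈ I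
    · rw [hPin ⟨i, hi⟩]
      exact hPd _
    · rw [hPout i hi]
      refine ⟨by simp, fun k => ?_⟩
      rw [coeff_zero, abs_zero]
      positivity
  have hsum : ∑ i, ((zq (P i) : ℚ[X]) : PowerSeries ℚ) * h i = ∑ l, zp (P' l) * h l.1 := by
    have h1 : ∑ i, ((zq (P i) : ℚ[X]) : PowerSeries ℚ) * h i =
        ∑ i ∈ I, ((zq (P i) : ℚ[X]) : PowerSeries ℚ) * h i := by
      refine (Finset.sum_subset (Finset.subset_univ I) (fun i _ hi => ?_)).symm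
      rw [hPout i hi]
      unfold zq
      rw [Polynomial.map_zero, Polynomial.coe_zero, zero_mul]
    rw [h1, ← Finset.sum_coe_sort]
    refine Finset.sum_congr rfl (fun l _ => ?_)
    rw [hPin l]
    rfl
  have hcoef : ∀ i < (m * M - 1) * L, PowerSeries.coeff i
      (∑ i, ((zq (P i) : ℚ[X]) : PowerSeries ℚ) * h i) = 0 := by
    intro i hi
    rw [hsum]
    exact hPc i hi
  have hne : ∑ i, ((zq (P i) : ℚ[X]) : PowerSeries ℚ) * h i ≠ 0 := by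
    intro h0
    have h1 := hI (fun i => zq (P i)) (fun i hi => by
      rw [hPout i hi]
      unfold zq
      exact Polynomial.map_zero _) h0
    apply hP0
    funext l
    have h2 := congrFun h1 l.1
    simp only [Pi.zero_apply] at h2 ⊢
    rw [hPin l] at h2
    by_contra h3
    exact zq_ne_zero h3 h2
  have hPdeg' : ∀ i, (zq (P i)).natDegree ≤ M * L := by
    intro i
    rw [natDegree_zq]
    exact (hPdc i).1
  have hdet := hc0 (M * L) (fun i => zq (P i)) hPdeg' hne (fun i hi => hcoef i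
    (lt_of_le_of_lt hi (index_lt m M L c0 hm1 hM3 (by omega))))
  have hspan := hzb (M * L) ((m * M - 1) * L) (L + c2) (fun i => zq (P i)) hPdeg'
    hcoef hdet (index_le m M L c2 (Nat.mul_pos hm1 (by omega))) F w⁻¹
    (Algebra.IsIntegral.isIntegral _) hξ0 hGξ
  -- denominators and sizes
  obtain ⟨Dg, hD0, hD1, hD⟩ := hCg (TT L)
  obtain ⟨Pm, hPm⟩ : ∃ Pm : Matrix d d ℤ[X], Pm = Matrix.of fun s j => C (u s) * P j := ⟨_, rfl⟩
  have hPmq : Pm.map zq = otr uq (fun j => zq (P j)) := by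
    ext1 s j
    rw [hPm, Matrix.map_apply, otr_apply, huq]
    unfold zq
    rw [Matrix.of_apply, Polynomial.map_mul, Polynomial.map_C]
    rfl
  have hPmdeg : ∀ s j, (Pm s j).natDegree ≤ M * L := by
    intro s j
    rw [hPm]
    exact (Polynomial.natDegree_C_mul_le _ _).trans (hPdc j).1
  have hPn := sum_nrm_le Pm (M * L) (U * Cs ^ L) (fun s j => ⟨hPmdeg s j, fun k => by
    rw [hPm]
    show |(C (u s) * P j).coeff k| ≤ _
    rw [coeff_C_mul, abs_mul]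
    push_cast
    refine mul_le_mul ?_ ((hPdc j).2 k) (abs_nonneg _) (by positivity)
    rw [Int.abs_eq_natAbs]
    exact_mod_cast hU s⟩)
  have hspec := hD (M * L) _ Pm hPmdeg hPn
  rw [hPmq] at hspec
  obtain ⟨Z, hZ⟩ : ∃ Z : ℕ → d → ℚ[X], Z = Pv (zq q) (B.map zq) (fun j => zq (P j)) := ⟨_, rfl⟩
  have hPk : ∀ k, Pk (zq q) (B.map zq) (AA N δ) (otr uq (fun j => zq (P j))) k =
      otr uq (Z k) := by
    intro k
    rw [hZ]
    exact Pk_outer _ _ _ uq huN _ k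
  simp only [hPk, otr_apply] at hspec
  rw [← hZ] at hspan
  have hZdeg : ∀ k ≤ TT L, ∀ i, (C (uq i0) * Z k i).natDegree ≤ M * L + c * TT L := by
    intro k hk i
    have h1 := hR.2 d d (zq q) (B.map zq) (AA N δ) (otr uq (fun j => zq (P j)))
      c (M * L) hc1 (fun i j => hc2 i j) (fun s j =>
        (Polynomial.natDegree_C_mul_le _ _).trans (hPdeg' j)) k i0 i
    rw [hPk] at h1
    exact h1.trans (Nat.add_le_add_left (Nat.mul_le_mul_left _ hk) _)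
  have hune : uq i0 ≠ 0 := by
    intro h0
    rw [h0, abs_zero] at hu1
    linarith
  have hDle : (Dg : ℚ) ≤ (Cg : ℚ) ^ (TT L + 1) := by exact_mod_cast hD1
  have hDR : (Dg : ℝ) ≤ (Cg : ℝ) ^ (TT L + 1) := by exact_mod_cast hD1
  obtain ⟨E, hE'⟩ : ∃ E, E = M * L + c * TT L := ⟨_, rfl⟩
  have hEE : M * L + c * (m + (L + c2)) = E := hE'.symm
  rw [hEE]
  obtain ⟨v, hv⟩ : ∃ v : Fin (m + (L + c2)) → d → F, v = fun (k : Fin (m + (L + c2))) i =>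
      (a0 : F) ^ E * w ^ E * aeval w⁻¹ ((Dg : ℚ) • (C (uq i0) * Z k i)) := ⟨_, rfl⟩
  have hve : ∀ k i, v k i = ((a0 : F) ^ E * w ^ E * (algebraMap ℚ F (Dg * uq i0))) *
      aeval w⁻¹ (Z k i) := by
    intro k i
    rw [hv]
    show (a0 : F) ^ E * w ^ E * aeval w⁻¹ ((Dg : ℚ) • (C (uq i0) * Z k i)) = _
    rw [map_smul, map_mul, aeval_C, Algebra.smul_def, map_mul (algebraMap ℚ F)]
    ring
  have hne' : ((a0 : F) ^ E * w ^ E * (algebraMap ℚ F (Dg * uq i0))) ≠ 0 := by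
    refine mul_ne_zero (mul_ne_zero (pow_ne_zero _ ?_) (pow_ne_zero _ hw0)) ?_
    · exact_mod_cast ha0.ne'
    · rw [Ne, map_eq_zero]
      exact mul_ne_zero (by exact_mod_cast hD0.ne') hune
  refine ⟨v, ?_, ?_, ?_, ?_⟩
  · intro y hy1 hy2
    refine hspan y (fun k hk => ?_) hy2
    have h2 := hy1 ⟨k, hk⟩
    simp only [hve, mul_assoc _ (aeval w⁻¹ _) _] at h2
    rw [← Finset.mul_sum] at h2
    exact (mul_eq_zero.1 h2).resolve_left hne'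
  · intro k i
    obtain ⟨z, hz⟩ := (hspec k (le_of_lt k.2)).1 i0 i
    have hzdeg : z.natDegree ≤ E := by
      rw [← natDegree_zq, ← hz, hE']
      exact (Polynomial.natDegree_smul_le _ _).trans (hZdeg k (le_of_lt k.2) _)
    rw [hv]
    show IsIntegral ℤ ((a0 : F) ^ E * w ^ E * aeval w⁻¹ ((Dg : ℚ) • (C (uq i0) * Z k i)))
    rw [hz]
    exact int_valueA z E a0 w hw0 haI hzdeg
  · intro τ k i
    rw [hv]
    have h1 := conj_bound τ ((Dg : ℚ) • (C (uq i0) * Z k i)) E a0 w hw0 T hT haT (hτ τ) (by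
      rw [hE']
      exact (Polynomial.natDegree_smul_le _ _).trans (hZdeg k (le_of_lt k.2) _))
    refine h1.trans ?_
    refine mul_le_mul_of_nonneg_left ?_ (by positivity)
    have h2 : nrm ((Dg : ℚ) • (C (uq i0) * Z k i)) ≤ (Cg : ℚ) ^ (TT L + 1) *
        ((Fintype.card (d × d) : ℚ) * ((((M * L : ℕ) : ℚ) + 1) * ((U * Cs ^ L : ℕ) : ℚ)) *
          2 ^ (M * L) * (Cg : ℚ) ^ (TT L + 1)) := by
      rw [nrm_smul']
      refine mul_le_mul hDle ?_ (nrm_nonneg _) (by positivity)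
      refine le_trans ?_ (hspec k (le_of_lt k.2)).2
      have e1 : nrm (C (uq i0) * Z k i) ≤ ∑ j, nrm (C (uq i0) * Z k j) :=
        Finset.single_le_sum (f := fun j => nrm (C (uq i0) * Z k j)) (fun _ _ => nrm_nonneg _)
          (Finset.mem_univ i)
      have e2 : ∑ j, nrm (C (uq i0) * Z k j) ≤ ∑ i, ∑ j, nrm (C (uq i) * Z k j) :=
        Finset.single_le_sum (f := fun i => ∑ j, nrm (C (uq i) * Z k j))
          (fun _ _ => Finset.sum_nonneg (fun _ _ => nrm_nonneg _)) (Finset.mem_univ i0)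
      exact e1.trans e2
    have h3 : ((nrm ((Dg : ℚ) • (C (uq i0) * Z k i)) : ℚ) : ℝ) ≤ _ := Rat.cast_le.2 h2
    refine h3.trans ?_
    have h4 : V L ≤ 1 + (V L + (U : ℝ) * W L) := by
      have : 0 ≤ (U : ℝ) * W L := mul_nonneg (Nat.cast_nonneg _) (hW0 L)
      linarith
    refine le_trans (le_of_eq ?_) h4
    simp only [V, A, TT]
    push_cast
    ring
  · intro k
    have hxρ : ‖(σ w)⁻¹‖ ≤ ρ := by
      rw [norm_inv, inv_le_comm₀ (by linarith) hρ]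
      exact hw3
    have h2ρ : |(2 * ρ)| = 2 * ρ := abs_of_pos (by linarith)
    have hsm : ∀ i, Sm (h i) ‖(σ w)⁻¹‖ := by
      intro i
      refine (hρh i).mono ?_
      rw [abs_norm, h2ρ]
      linarith
    have h1 := evC_form (Z k) h (σ w)⁻¹ hsm
    have hrec := rec_coeD S.toGSysW hR (otr uq (fun j => zq (P j))) k
    rw [hPk, trace_outer, trace_outer, ← hh] at hrec
    rw [hrec] at h1
    have h2 : ∑ i, σ (v k i) * evC (h i) (σ w)⁻¹ =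
        σ ((a0 : F) ^ E * w ^ E * (algebraMap ℚ F (Dg * uq i0))) *
          ∑ i, aeval (σ w)⁻¹ (Z k i) * evC (h i) (σ w)⁻¹ := by
      rw [Finset.mul_sum]
      refine Finset.sum_congr rfl fun i _ => ?_
      rw [hve, map_mul, ← map_inv₀, sigma_aeval]
      ring
    have h3 : ‖σ ((a0 : F) ^ E * w ^ E * (algebraMap ℚ F (Dg * uq i0)))‖ ≤
        T ^ (2 * E) * ((Cg : ℝ) ^ (TT L + 1) * (U : ℝ)) := by
      rw [map_mul, map_mul, map_pow, map_pow, map_natCast, norm_mul, norm_mul, norm_pow, norm_pow,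
        Complex.norm_natCast, eq_ratCast (algebraMap ℚ F), map_ratCast, norm_ratC, two_mul, pow_add]
      refine mul_le_mul (mul_le_mul (pow_le_pow_left₀ (Nat.cast_nonneg _) haT E)
        (pow_le_pow_left₀ (norm_nonneg _) (hτ σ) E) (by positivity) (by positivity)) ?_
        (abs_nonneg _) (by positivity)
      rw [Rat.cast_mul, abs_mul, Rat.cast_natCast, Nat.abs_cast]
      refine mul_le_mul hDR ?_ (abs_nonneg _) (by positivity)
      have h5 : ((uq i0 : ℚ) : ℝ) = ((u i0 : ℤ) : ℝ) := by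
        rw [huq]
        push_cast
        rfl
      rw [h5]
      exact hU0
    rw [h2, ← h1, norm_mul]
    have hA' : ((∑ i, nrm (zq (P i)) : ℚ) : ℝ) ≤ A L := by
      have e1 : ∑ i, nrm (zq (P i)) ≤ ∑ i, nrm (C (uq i0) * zq (P i)) :=
        Finset.sum_le_sum (fun i _ => nrm_C_mul _ _ hu1)
      have e2 : ∑ j, nrm (C (uq i0) * zq (P j)) ≤ ∑ i, ∑ j, nrm (C (uq i) * zq (P j)) :=
        Finset.single_le_sum (f := fun i => ∑ j, nrm (C (uq i) * zq (P j)))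
          (fun _ _ => Finset.sum_nonneg (fun _ _ => nrm_nonneg _)) (Finset.mem_univ i0)
      have e3 : ∑ i, ∑ j, nrm (C (uq i) * zq (P j)) = ∑ i, ∑ j, nrm (zq (Pm i j)) := by
        refine Finset.sum_congr rfl (fun i _ => Finset.sum_congr rfl (fun j _ => ?_))
        have := congrFun (congrFun hPmq i) j
        rw [Matrix.map_apply, otr_apply] at this
        rw [this]
      have e4 : ((∑ i, nrm (zq (P i)) : ℚ) : ℝ) ≤ _ :=
        Rat.cast_le.2 ((e1.trans (e2.trans e3.le)).trans hPn)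
      refine e4.trans (le_of_eq ?_)
      simp only [A]
      push_cast
      ring
    have hNm := Nm_form (fun j => zq (P j)) h (2 * ρ) (A L) h0 (by rw [h2ρ]; exact hρ1) hρh hA'
      hhn hh0
    have hsv := small_valueC (zq q) ((m * M - 1) * L) k (TT L) ρ Q (A L * h0) (σ w)⁻¹ hρ hρ1
      hxρ hcoef (Sm_form _ _ _ hρh) hNm hQ1 hQ (le_of_lt k.2)
    rw [norm_inv] at hsv
    calc ‖σ ((a0 : F) ^ E * w ^ E * (algebraMap ℚ F (Dg * uq i0)))‖ *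
          ‖evC (((X * zq q : ℚ[X]) : PowerSeries ℚ) ^ (k : ℕ) *
          hs k (∑ i, ((zq (P i) : ℚ[X]) : PowerSeries ℚ) * h i)) (σ w)⁻¹‖
        ≤ T ^ (2 * E) * ((Cg : ℝ) ^ (TT L + 1) * (U : ℝ)) *
          ((‖σ w‖⁻¹ / ρ) ^ ((m * M - 1) * L) * (Q ^ TT L * (A L * h0))) :=
          mul_le_mul h3 hsv (norm_nonneg _) (by positivity)
      _ = T ^ (2 * E) * ((U : ℝ) * W L) * (‖σ w‖⁻¹) ^ ((m * M - 1) * L) := by
          simp only [W]
          rw [div_eq_mul_inv, mul_pow]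
          ring
      _ ≤ T ^ (2 * E) * (1 + (V L + (U : ℝ) * W L)) * (‖σ w‖⁻¹) ^ ((m * M - 1) * L) := by
          refine mul_le_mul_of_nonneg_right ?_ (by positivity)
          refine mul_le_mul_of_nonneg_left ?_ (by positivity)
          linarith [hV0 L]

end Pool.Agent.PSV.H21
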