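import Pool.Agent.Helper21_MTN.Zsb
import Pool.Agent.PSV.StmtsG

/-!
# Row psv:ZSP

The second zero estimate with a saturated basis of the relations.
-/

set_option autoImplicit false
set_option linter.unusedSectionVars false

namespace Pool.Agent.PSV.H21

open Matrix Polynomial Pool.Agent.MT100 Pool.Agent.MT100G Pool.Agent.MT100G.H58
open Pool.Agent.Helper58_MT Pool.Agent.MT100D Pool.Agent.MT100D.H78 Pool.Agent.MTN.H21
open Pool.Agent.MT100G.H76 Pool.Agent.MT100.H76

theorem SatB.relB {d : Type} [Fintype d] {h : d → PowerSeries ℚ} {e : ℕ} {R : Fin e → d → ℚ[X]}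
    (hS : SatB h R) : RelB h R :=
  ⟨hS.rel, hS.indep, fun p hp => ⟨1, one_ne_zero, by rw [one_smul]; exact hS.sat p hp⟩⟩

variable {d : Type} [Fintype d] [DecidableEq d]

/-- the second zero estimate at algebraic points, saturated basis -/
theorem zspA (q' : ℚ[X]) (hq0 : q' ≠ 0) (B' : Matrix d d ℚ[X]) (A : Matrix d d ℚ)
    (H : Matrix d d (PowerSeries ℚ))
    (hone : ∀ i j, PowerSeries.constantCoeff (H i j) = if i = j then 1 else 0)
    (hode : co (X * q') • H.map (PowerSeries.derivative ℚ) = B'.map co * H - co q' • (H * pc A))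
    (u : d → ℚ) (hu : A *ᵥ u = 0) (m' e : ℕ) (ε : d ≃ Fin m' ⊕ Fin e) (R : Fin e → d → ℚ[X])
    (hSat : SatB (hv H u) R) :
    ∃ c2 : ℕ, ∀ (M T τ : ℕ) (P : d → ℚ[X]), (∀ i, (P i).natDegree ≤ M) →
      (∀ i < T, PowerSeries.coeff i (∑ i, ((P i : ℚ[X]) : PowerSeries ℚ) * hv H u i) = 0) →
      Dt q' B' P ε R ≠ 0 → m' * M + c2 ≤ T + τ →
      ∀ (L : Type) [Field L] [Algebra ℚ L] (ξ : L), IsIntegral ℚ ξ → ξ ≠ 0 → aeval ξ q' ≠ 0 →
      ∀ y : d → L, (∀ k < m' + τ, ∑ i, aeval ξ (Pv q' B' P k i) * y i = 0) →
        (∀ l, ∑ i, aeval ξ (R l i) * y i = 0) → y = 0 := by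
  classical
  have hR : RelB (hv H u) R := SatB.relB hSat
  obtain ⟨c, hc, hB⟩ : ∃ c : ℕ, (X * q').natDegree ≤ c ∧ ∀ i j, (B' i j).natDegree ≤ c := by
    refine ⟨(X * q').natDegree + ∑ i, ∑ j, (B' i j).natDegree, by omega, ?_⟩
    intro i j
    have h1 : (B' i j).natDegree ≤ ∑ j, (B' i j).natDegree :=
      Finset.single_le_sum (f := fun j => (B' i j).natDegree) (fun _ _ => Nat.zero_le _)
        (Finset.mem_univ j)
    have h2 : ∑ j, (B' i j).natDegree ≤ ∑ i, ∑ j, (B' i j).natDegree :=
      Finset.single_le_sum (f := fun i => ∑ j, (B' i j).natDegree)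
        (fun _ _ => Nat.zero_le _) (Finset.mem_univ i)
    omega
  obtain ⟨c3, hc3⟩ := degR R
  have hcard : Fintype.card d = m' + e := by
    rw [Fintype.card_congr ε, Fintype.card_sum, Fintype.card_fin, Fintype.card_fin]
  have hF : ∀ j, (1 : ℚ[X]) • nb q' B' 0 (R j) ∈ Submodule.span ℚ[X] (Set.range R) := by
    intro j
    rw [one_smul]
    refine hSat.sat _ ?_
    obtain ⟨f, hf0, hf⟩ := nb_R q' B' _ H hode u hu R hR j
    have hz : ∀ p ∈ Submodule.span ℚ[X] (Set.range R),
        ∑ i, ((p i : ℚ[X]) : PowerSeries ℚ) * hv H u i = 0 := by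
      intro p hp
      induction hp using Submodule.span_induction with
      | mem p hp =>
          obtain ⟨l, rfl⟩ := hp
          exact hSat.rel l
      | zero => simp
      | add a b _ _ ha hb =>
          simp only [Pi.add_apply, Polynomial.coe_add, add_mul, Finset.sum_add_distrib, ha, hb,
            add_zero]
      | smul c a _ ha =>
          simp only [Pi.smul_apply, smul_eq_mul, Polynomial.coe_mul, mul_assoc, ← Finset.mul_sum,
            ha, mul_zero]
    have h1 := hz _ hf
    simp only [Pi.smul_apply, smul_eq_mul, Polynomial.coe_mul, mul_assoc, ← Finset.mul_sum] at h1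
    refine (mul_eq_zero.1 h1).resolve_left ?_
    exact fun h0 => hf0 (Polynomial.coe_eq_zero_iff.1 h0)
  refine ⟨m' * (c * m') + e * c3, ?_⟩
  intro M T τ P hM hT hDt hbig L _ _ ξ hint hξ hqξ
  have hFξ : aeval ξ (1 : ℚ[X]) ≠ 0 := by
    rw [map_one]
    exact one_ne_zero
  intro y hy hyR
  -- rows of full rank
  have hfin : ∀ (g : ℚ[X]) (m : ℕ), aeval ξ g ≠ 0 → m ≤ m' + τ →
      (∀ E : d → ℚ[X], g • E ∈ SS q' B' P R m) → y = 0 := by
    intro g m hg hm hE
    have hzero : ∀ p ∈ SS q' B' P R m, ∑ i, aeval ξ (p i) * y i = 0 := by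
      intro p hp
      unfold SS at hp
      induction hp using Submodule.span_induction with
      | mem p hp =>
          rcases hp with ⟨j, rfl⟩ | ⟨k, hk, rfl⟩
          · exact hyR j
          · have hk' : k < m := hk
            exact hy k (by omega)
      | zero => simp
      | add a b _ _ ha hb =>
          simp only [Pi.add_apply, map_add, add_mul, Finset.sum_add_distrib, ha, hb, add_zero]
      | smul c a _ ha =>
          simp only [Pi.smul_apply, smul_eq_mul, map_mul, mul_assoc, ← Finset.mul_sum, ha,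
            mul_zero]
    funext i
    have h1 := hzero _ (hE (Pi.single i 1))
    rw [Finset.sum_eq_single i] at h1
    · simp only [Pi.smul_apply, Pi.single_eq_same, smul_eq_mul, mul_one] at h1
      exact (mul_eq_zero.1 h1).resolve_left hg
    · intro b _ hb
      simp [hb]
    · intro h; exact absurd (Finset.mem_univ _) h
  by_cases hu0 : u = 0
  · -- everything is a relation
    have hm0 : m' = 0 := by
      have h1 := card_le_of_sat (d := d) R (by
        intro j
        refine hR.max _ ?_
        have : ∀ i, hv H u i = 0 := by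
          intro i
          unfold hv
          refine Finset.sum_eq_zero fun x _ => ?_
          rw [hu0]
          simp
        simp [this])
      rw [Fintype.card_fin] at h1
      omega
    have hfull : ∀ E : d → ℚ[X], (1 : ℚ[X]) • E ∈ SS q' B' P R 0 := by
      intro E
      rw [one_smul]
      have h1 : E ∈ Submodule.span ℚ[X] (Set.range R) := by
        refine hSat.sat _ ?_
        have : ∀ i, hv H u i = 0 := by
          intro i
          unfold hv
          refine Finset.sum_eq_zero fun x _ => ?_
          rw [hu0]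
          simp
        simp [this]
      refine (Submodule.span_le.2 ?_) h1
      rintro _ ⟨l, rfl⟩
      exact R_mem_SS q' B' P R 0 l
    exact hfin _ 0 hFξ (by omega) hfull
  · obtain ⟨i0, hi0⟩ : ∃ i, u i ≠ 0 := by
      by_contra hcon
      push Not at hcon
      exact hu0 (funext hcon)
    -- the order of `Dt` at `0`
    have hXT : (PowerSeries.X : PowerSeries ℚ) ^ T ∣ pr H u P := by
      rw [PowerSeries.X_pow_dvd_iff]
      exact hT
    have hunit : IsUnit (hv H u i0) := by
      rw [PowerSeries.isUnit_iff_constantCoeff]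
      have h1 : PowerSeries.constantCoeff (hv H u i0) = u i0 := by
        unfold hv
        rw [map_sum, Finset.sum_eq_single i0]
        · rw [map_mul, hone, if_pos rfl, one_mul, PowerSeries.constantCoeff_C]
        · intro x _ hx
          rw [map_mul, hone, if_neg (Ne.symm hx), zero_mul]
        · intro h; exact absurd (Finset.mem_univ _) h
      rw [h1]
      exact IsUnit.mk0 _ hi0
    have hXD : X ^ T ∣ Dt q' B' P ε R := by
      rw [Dt_eq]
      set A : Matrix d d ℚ[X] :=
        Matrix.of fun i => Sum.elim (fun k : Fin m' => Pv q' B' P k) R (ε i) with hA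
      have h1 : ∀ i, (PowerSeries.X : PowerSeries ℚ) ^ T ∣ ((A.map co) *ᵥ hv H u) i := by
        intro i
        have h2 : ((A.map co) *ᵥ hv H u) i
            = pr H u (Sum.elim (fun k : Fin m' => Pv q' B' P k) R (ε i)) := by
          simp only [Matrix.mulVec, dotProduct, Matrix.map_apply, hA, Matrix.of_apply, pr]
        rw [h2]
        rcases ε i with k | l
        · exact pr_Pv q' B' _ H hode u hu P T hXT k
        · have : pr H u (R l) = 0 := hR.rel l
          simp only [Sum.elim_inr, this]
          exact dvd_zero _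
      have h2 : (A.map co).det • hv H u
          = (A.map co).adjugate *ᵥ ((A.map co) *ᵥ hv H u) := by
        rw [Matrix.mulVec_mulVec, Matrix.adjugate_mul, Matrix.smul_mulVec, Matrix.one_mulVec]
      have h3 := congrFun h2 i0
      rw [Pi.smul_apply, smul_eq_mul] at h3
      have h4 : (PowerSeries.X : PowerSeries ℚ) ^ T ∣ (A.map co).det * hv H u i0 := by
        rw [h3]
        simp only [Matrix.mulVec, dotProduct] at h1 ⊢
        exact Finset.dvd_sum fun k _ => Dvd.dvd.mul_left (h1 k) _
      have h5 := hunit.dvd_mul_right.1 h4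
      have h6 : (A.map co).det = co A.det := by
        have := RingHom.map_det (co : ℚ[X] →+* PowerSeries ℚ) A
        exact this.symm
      rw [h6, co_apply, PowerSeries.X_pow_dvd_iff] at h5
      rw [Polynomial.X_pow_dvd_iff]
      intro m hm
      have := h5 m hm
      rwa [Polynomial.coeff_coe] at this
    -- the degree of `Dt`
    have hdeg : (Dt q' B' P ε R).natDegree ≤ m' * M + (m' * (c * m') + e * c3) := by
      rw [Dt_eq]
      refine (det_natDegree_le _ (fun i => Sum.elim (fun k : Fin m' => M + c * (k : ℕ))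
        (fun _ => c3) (ε i)) ?_).trans ?_
      · intro i j
        rw [Matrix.of_apply]
        rcases ε i with k | l
        · exact Pv_natDegree q' B' P c M hc hB hM k j
        · exact hc3 l j
      · rw [Equiv.sum_comp ε (Sum.elim (fun k : Fin m' => M + c * (k : ℕ)) (fun _ => c3)),
          Fintype.sum_sum_type]
        simp only [Sum.elim_inl, Sum.elim_inr, Finset.sum_const, Finset.card_univ,
          Fintype.card_fin, smul_eq_mul]
        have h1 : ∑ k : Fin m', (M + c * (k : ℕ)) ≤ m' * (M + c * m') := by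
          refine (Finset.sum_le_card_nsmul _ _ (M + c * m') fun k _ => ?_).trans (by
            rw [Finset.card_univ, Fintype.card_fin, smul_eq_mul])
          have := Nat.mul_le_mul_left c k.2.le
          omega
        rw [Nat.mul_add] at h1
        omega
    -- the multiplicity at `ξ`
    set π : ℚ[X] := minpoly ℚ ξ with hπ
    have hπirr : Irreducible π := minpoly.irreducible hint
    have hπ0 : aeval ξ π = 0 := minpoly.aeval ℚ ξ
    have hπmon : π.Monic := minpoly.monic hint
    have hπ1 : aeval ξ (derivative π) ≠ 0 := hπirr.separable.aeval_derivative_ne_zero hπ0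
    have hπdeg : 1 ≤ π.natDegree := hπirr.natDegree_pos
    obtain ⟨a, g, hg, hgd⟩ : ∃ (a : ℕ) (g : ℚ[X]), Dt q' B' P ε R = π ^ a * g ∧ ¬ π ∣ g := by
      obtain ⟨a, g, hgd, hg⟩ := WfDvdMonoid.max_power_factor hDt hπirr
      exact ⟨a, g, hg, hgd⟩
    have hg0 : aeval ξ g ≠ 0 := fun h => hgd (minpoly.dvd ℚ ξ h)
    have haτ : a ≤ τ := by
      have hco : IsCoprime (X ^ T : ℚ[X]) (π ^ a) := by
        refine IsCoprime.pow ?_
        refine (hπirr.coprime_iff_not_dvd.2 fun h => ?_).symm
        obtain ⟨r, hr⟩ := h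
        apply hξ
        have := congrArg (aeval ξ) hr
        rw [map_mul, hπ0, zero_mul, aeval_X] at this
        exact this
      have h1 : X ^ T * π ^ a ∣ Dt q' B' P ε R :=
        hco.mul_dvd hXD (by rw [hg]; exact dvd_mul_right _ _)
      have h2 := (natDegree_le_of_dvd h1 hDt).trans hdeg
      rw [Monic.natDegree_mul (monic_X_pow _) (hπmon.pow _), natDegree_X_pow,
        hπmon.natDegree_pow] at h2
      have h3 : a * 1 ≤ a * π.natDegree := Nat.mul_le_mul_left a hπdeg
      omega
    obtain ⟨g', hg', hfull⟩ := lowerA q' B' P R 1 hF ξ π hπ0 hπ1 hξ hqξ hFξ a m' g hg0 (fun E => by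
      rw [← hg]; exact det_fullS q' B' P ε R E)
    exact hfin g' (m' + a) hg' (by omega) hfull

theorem zsp : ZspStmt := by
  intro d _ _ H K N δ q Bm S u hu m' e ε R hSat
  exact zspA (zq q) (zq_ne S.q0) (Bm.map zq) (AA N δ) H S.one (gsysD_ode S.toGSysW) u hu m' e ε R
    hSat

end Pool.Agent.PSV.H21
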